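/- Left-orderable n-Engel groups are locally indicable: definitions shared by all files. -/
import Mathlib

namespace Pool.Agent.H67.EG

/-- iterated commutator: E x y k is [x, y, ..., y] (k times) with [a,b] = a⁻¹ b⁻¹ a b. -/
def E {G : Type*} [Group G] (x y : G) : ℕ → G
  | 0 => x
  | k + 1 => (E x y k)⁻¹ * y⁻¹ * E x y k * y

/-- n-Engel group. -/
def Eng (G : Type*) [Group G] (n : ℕ) : Prop := ∀ x y : G, E x y n = 1

/-- iterated conjugation. -/
def w {G : Type*} [Group G] (x z : G) : ℕ → G
  | 0 => x
  | k + 1 => (w x z k)⁻¹ * z * w x z k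

/-- G acts monotonically on X. -/
def Mono (G X : Type*) [Group G] [MulAction G X] [LE X] : Prop :=
  ∀ (g : G) (a b : X), a ≤ b → g • a ≤ g • b

/-- next fixed point of g above z. -/
noncomputable def up {G X : Type*} [Group G] [MulAction G X] [CompleteLinearOrder X] (g : G) (z : X) : X :=
  sInf {f | z ≤ f ∧ g • f = f}

/-- previous fixed point of g below z. -/
noncomputable def dn {G X : Type*} [Group G] [MulAction G X] [CompleteLinearOrder X] (g : G) (z : X) : X :=
  sSup {f | f ≤ z ∧ g • f = f}

end Pool.Agent.H67.EG
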