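/- Basic facts. -/
import Pool.Agent.H67.EG.Defs

namespace Pool.Agent.H67.EG

set_option linter.unusedSectionVars false

variable {G : Type*} [Group G]

theorem E_eq (x y : G) (k : ℕ) :
    E x y (k + 1) = (y ^ k)⁻¹ * w x y⁻¹ (k + 1) * y ^ (k + 1) := by
  induction k with
  | zero => simp [E, w, mul_assoc]
  | succ k ih =>
    have h1 : E x y (k + 1 + 1) = (E x y (k + 1))⁻¹ * y⁻¹ * E x y (k + 1) * y := rfl
    have h2 : w x y⁻¹ (k + 1 + 1) = (w x y⁻¹ (k + 1))⁻¹ * y⁻¹ * w x y⁻¹ (k + 1) := rfl
    rw [h1, h2, ih]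
    generalize w x y⁻¹ (k + 1) = W
    rw [pow_succ y (k + 1), pow_succ y k]
    group

theorem w_eq {n : ℕ} (h : Eng G n) (x z : G) : w x z (n + 1) = z := by
  have h1 := E_eq x z⁻¹ n
  have h2 : E x z⁻¹ (n + 1) = 1 := by
    show (E x z⁻¹ n)⁻¹ * (z⁻¹)⁻¹ * E x z⁻¹ n * z⁻¹ = 1
    rw [h x z⁻¹]; group
  rw [h2, inv_inv] at h1
  have h3 : w x z (n + 1) = (z⁻¹) ^ n * ((z⁻¹) ^ (n + 1))⁻¹ := by
    have : (z⁻¹ ^ n) * 1 * ((z⁻¹) ^ (n + 1))⁻¹ = w x z (n + 1) := by rw [h1]; group
    rw [← this, mul_one]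
  rw [h3, pow_succ]
  group

variable {X : Type*} [CompleteLinearOrder X] [MulAction G X]

theorem smul_lt (hm : Mono G X) (g : G) {a b : X} (h : a < b) : g • a < g • b := by
  refine lt_of_le_of_ne (hm g a b h.le) fun e => ?_
  have : a = b := by
    have := congrArg (fun t => g⁻¹ • t) e
    simpa using this
  exact h.ne this

theorem smul_lt_iff (hm : Mono G X) (g : G) {a b : X} : g • a < g • b ↔ a < b := by
  constructor
  · intro h
    have := smul_lt hm g⁻¹ h
    simpa using this
  · exact smul_lt hm g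

theorem smul_le_iff (hm : Mono G X) (g : G) {a b : X} : g • a ≤ g • b ↔ a ≤ b := by
  constructor
  · intro h
    have := hm g⁻¹ _ _ h
    simpa using this
  · exact hm g _ _

theorem inv_fix {g : G} {a : X} (h : g • a = a) : g⁻¹ • a = a := by
  rw [inv_smul_eq_iff]; exact h.symm

theorem inv_fix_iff {g : G} {a : X} : g⁻¹ • a = a ↔ g • a = a := by
  constructor
  · intro h
    have := inv_fix h
    simpa using this
  · exact inv_fix

theorem pow_fix {g : G} {a : X} (h : g • a = a) (k : ℕ) : g ^ k • a = a := by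
  induction k with
  | zero => simp
  | succ k ih => rw [pow_succ, mul_smul, h, ih]

theorem le_up (g : G) (z : X) : z ≤ up g z := le_sInf fun _ hf => hf.1

theorem dn_le (g : G) (z : X) : dn g z ≤ z := sSup_le fun _ hf => hf.1

theorem up_le {g : G} {z f : X} (h1 : z ≤ f) (h2 : g • f = f) : up g z ≤ f := sInf_le ⟨h1, h2⟩

theorem le_dn {g : G} {z f : X} (h1 : f ≤ z) (h2 : g • f = f) : f ≤ dn g z := le_sSup ⟨h1, h2⟩

theorem up_fix (hm : Mono G X) (g : G) (z : X) : g • up g z = up g z := by
  have h1 : ∀ g' : G, (∀ f : X, g • f = f → g' • f = f) → g' • up g z ≤ up g z := by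
    intro g' hg'
    refine le_sInf fun f hf => ?_
    have := hm g' _ _ (up_le hf.1 hf.2)
    rwa [hg' f hf.2] at this
  refine le_antisymm (h1 g fun f h => h) ?_
  have h2 := h1 g⁻¹ fun f h => inv_fix h
  have := hm g _ _ h2
  simpa using this

theorem dn_fix (hm : Mono G X) (g : G) (z : X) : g • dn g z = dn g z := by
  have h1 : ∀ g' : G, (∀ f : X, g • f = f → g' • f = f) → dn g z ≤ g' • dn g z := by
    intro g' hg'
    refine sSup_le fun f hf => ?_
    have := hm g' _ _ (le_dn hf.1 hf.2)
    rwa [hg' f hf.2] at this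
  refine le_antisymm ?_ (h1 g fun f h => h)
  have h2 := h1 g⁻¹ fun f h => inv_fix h
  have := hm g _ _ h2
  simpa using this

theorem up_move {g : G} {z t : X} (h1 : z ≤ t) (h2 : t < up g z) : g • t ≠ t :=
  fun h => absurd (up_le h1 h) (not_le.mpr h2)

theorem dn_move {g : G} {z t : X} (h1 : t ≤ z) (h2 : dn g z < t) : g • t ≠ t :=
  fun h => absurd (le_dn h1 h) (not_le.mpr h2)

theorem lt_up (hm : Mono G X) {g : G} {z : X} (h : g • z ≠ z) : z < up g z := by
  refine lt_of_le_of_ne (le_up g z) fun e => h ?_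
  rw [e]
  exact up_fix hm g z

theorem dn_lt (hm : Mono G X) {g : G} {z : X} (h : g • z ≠ z) : dn g z < z := by
  refine lt_of_le_of_ne (dn_le g z) fun e => h ?_
  rw [← e]
  exact dn_fix hm g z

theorem comp_move {g : G} {z t : X} (h1 : dn g z < t) (h2 : t < up g z) : g • t ≠ t := by
  rcases le_total t z with h | h
  · exact dn_move h h1
  · exact up_move h h2

/-- a fixed point between a point moved up and a point moved down. -/
theorem fix_between (hm : Mono G X) {z : G} {t t' : X} (h : t < t') (h1 : t < z • t) (h2 : z • t' < t') :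
    ∃ f, t < f ∧ f < t' ∧ z • f = f := by
  set f := sSup {s : X | s ≤ t' ∧ s ≤ z • s} with hf
  have ht : t ≤ f := le_sSup ⟨h.le, h1.le⟩
  have ht' : f ≤ t' := sSup_le fun s hs => hs.1
  have hz1 : f ≤ z • f := by
    refine sSup_le fun s hs => ?_
    exact hs.2.trans (hm z _ _ (le_sSup hs))
  have hz2 : z • f ≤ f := by
    refine le_sSup ⟨?_, hm z _ _ hz1⟩
    exact (hm z _ _ ht').trans h2.le
  have hfix : z • f = f := le_antisymm hz2 hz1
  refine ⟨f, lt_of_le_of_ne ht ?_, lt_of_le_of_ne ht' ?_, hfix⟩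
  · intro e
    rw [← e] at hfix
    exact h1.ne hfix.symm
  · intro e
    rw [e] at hfix
    exact h2.ne hfix

/-- all points of a component move in the same direction. -/
theorem dir (hm : Mono G X) {z : G} {p b t t' : X} (hno : ∀ s, p < s → s < b → z • s ≠ s)
    (hp : p < t) (hb : t < b) (hp' : p < t') (hb' : t' < b) (h : t < z • t) : t' < z • t' := by
  by_contra hc
  have h2 : z • t' < t' := lt_of_le_of_ne (not_lt.mp hc) (hno t' hp' hb')
  rcases lt_trichotomy t t' with h3 | h3 | h3
  · obtain ⟨f, hf1, hf2, hf3⟩ := fix_between hm h3 h h2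
    exact hno f (hp.trans hf1) (hf2.trans hb') hf3
  · subst h3; exact absurd h (not_lt.mpr h2.le)
  · have h4 : t' < z⁻¹ • t' := by
      have := smul_lt hm z⁻¹ h2; simpa using this
    have h5 : z⁻¹ • t < t := by
      have := smul_lt hm z⁻¹ h; simpa using this
    obtain ⟨f, hf1, hf2, hf3⟩ := fix_between hm h3 h4 h5
    exact hno f (hp'.trans hf1) (hf2.trans hb) (inv_fix_iff.mp hf3)

/-- LEMMA 1 (one half, z up, x moves p up): contradiction. -/
theorem lem1a {n : ℕ} (he : Eng G n) (hm : Mono G X) {z x : G} {p b : X}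
    (hzp : z • p = p) (hup : ∀ t, p < t → t < b → t < z • t) (hxb : x • b = b) (hzb : z • b = b)
    (hxp : p < x • p) (hpb : p < b) : False := by
  have key : ∀ k, p < w x z k • p ∧ w x z k • b = b := by
    intro k
    induction k with
    | zero => exact ⟨hxp, hxb⟩
    | succ k ih =>
      obtain ⟨i1, i2⟩ := ih
      have e1 : w x z (k + 1) = (w x z k)⁻¹ * z * w x z k := rfl
      refine ⟨?_, ?_⟩
      · rw [e1, mul_smul, mul_smul]
        have h1 : w x z k • p < b := by
          have := smul_lt hm (w x z k) hpb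
          rwa [i2] at this
        have h2 := hup _ i1 h1
        have h3 := smul_lt hm (w x z k)⁻¹ h2
        simpa using h3
      · rw [e1, mul_smul, mul_smul, i2, hzb, inv_fix i2]
  have h1 := (key (n + 1)).1
  rw [w_eq he, hzp] at h1
  exact lt_irrefl _ h1

/-- LEMMA 1 (other half, z down, x moves b down): contradiction. -/
theorem lem1b {n : ℕ} (he : Eng G n) (hm : Mono G X) {z x : G} {p b : X}
    (hzb : z • b = b) (hdn : ∀ t, p < t → t < b → z • t < t) (hxp : x • p = p) (hzp : z • p = p)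
    (hxb : x • b < b) (hpb : p < b) : False := by
  have key : ∀ k, w x z k • b < b ∧ w x z k • p = p := by
    intro k
    induction k with
    | zero => exact ⟨hxb, hxp⟩
    | succ k ih =>
      obtain ⟨i1, i2⟩ := ih
      have e1 : w x z (k + 1) = (w x z k)⁻¹ * z * w x z k := rfl
      refine ⟨?_, ?_⟩
      · rw [e1, mul_smul, mul_smul]
        have h1 : p < w x z k • b := by
          have := smul_lt hm (w x z k) hpb
          rwa [i2] at this
        have h2 := hdn _ h1 i1
        have h3 := smul_lt hm (w x z k)⁻¹ h2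
        simpa using h3
      · rw [e1, mul_smul, mul_smul, i2, hzp, inv_fix i2]
  have h1 := (key (n + 1)).1
  rw [w_eq he, hzb] at h1
  exact lt_irrefl _ h1

/-- LEMMA 1: the two end points of a component have the same stabiliser. -/
theorem stab_eq {n : ℕ} (he : Eng G n) (hm : Mono G X) {z : G} {p b : X} (hpb : p < b)
    (hzp : z • p = p) (hzb : z • b = b) (hno : ∀ t, p < t → t < b → z • t ≠ t) (x : G) :
    x • p = p ↔ x • b = b := by
  -- if there is no point between, x preserves both or moves both; treat by cases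
  by_cases hne : ∃ t, p < t ∧ t < b
  · obtain ⟨t, ht1, ht2⟩ := hne
    -- choose z' = z or z⁻¹ which moves up
    have hz : ∃ z' : G, z' • p = p ∧ z' • b = b ∧ (∀ s, p < s → s < b → s < z' • s) := by
      rcases lt_or_gt_of_ne (hno t ht1 ht2) with h | h
      · refine ⟨z⁻¹, inv_fix hzp, inv_fix hzb, fun s hs1 hs2 => ?_⟩
        have hno' : ∀ s, p < s → s < b → z⁻¹ • s ≠ s := fun s h1 h2 h3 => hno s h1 h2 (inv_fix_iff.mp h3)
        have h4 : t < z⁻¹ • t := by
          have := smul_lt hm z⁻¹ h; simpa using this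
        exact dir hm hno' ht1 ht2 hs1 hs2 h4
      · exact ⟨z, hzp, hzb, fun s hs1 hs2 => dir hm hno ht1 ht2 hs1 hs2 h⟩
    obtain ⟨z', h1, h2, h3⟩ := hz
    have h3' : ∀ s, p < s → s < b → z'⁻¹ • s < s := by
      intro s hs1 hs2
      have := smul_lt hm z'⁻¹ (h3 s hs1 hs2)
      simpa using this
    constructor
    · intro hx
      by_contra hc
      rcases lt_or_gt_of_ne hc with h | h
      · exact lem1b he hm (inv_fix h2) h3' hx (inv_fix h1) h hpb
      · refine lem1b he hm (x := x⁻¹) (inv_fix h2) h3' (inv_fix hx) (inv_fix h1) ?_ hpb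
        have := smul_lt hm x⁻¹ h; simpa using this
    · intro hx
      by_contra hc
      rcases lt_or_gt_of_ne hc with h | h
      · refine lem1a he hm (x := x⁻¹) h1 h3 (inv_fix hx) h2 ?_ hpb
        have := smul_lt hm x⁻¹ h; simpa using this
      · exact lem1a he hm h1 h3 hx h2 h hpb
  · constructor
    · intro hx
      by_contra hc
      rcases lt_or_gt_of_ne hc with h | h
      · have h1 := smul_lt hm x hpb
        rw [hx] at h1
        exact hne ⟨x • b, h1, h⟩
      · have h1 : x⁻¹ • b < b := by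
          have := smul_lt hm x⁻¹ h; simpa using this
        have h2 := smul_lt hm x⁻¹ hpb
        rw [inv_fix hx] at h2
        exact hne ⟨x⁻¹ • b, h2, h1⟩
    · intro hx
      by_contra hc
      rcases lt_or_gt_of_ne hc with h | h
      · have h1 : p < x⁻¹ • p := by
          have := smul_lt hm x⁻¹ h; simpa using this
        have h2 := smul_lt hm x⁻¹ hpb
        rw [inv_fix hx] at h2
        exact hne ⟨x⁻¹ • p, h1, h2⟩
      · have h1 := smul_lt hm x hpb
        rw [hx] at h1
        exact hne ⟨x • p, h, h1⟩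

theorem pow_mono (hm : Mono G X) {z : G} {s : X} (h : s ≤ z • s) {i j : ℕ} (hij : i ≤ j) : z ^ i • s ≤ z ^ j • s := by
  obtain ⟨d, rfl⟩ := Nat.exists_eq_add_of_le hij
  clear hij
  induction d with
  | zero => exact le_rfl
  | succ d ih =>
    refine ih.trans ?_
    have : z ^ (i + (d + 1)) • s = z ^ (i + d) • z • s := by
      rw [← mul_smul, ← pow_succ]; rfl
    rw [this]
    exact hm _ _ _ h

/-- powers of an element moving up on (p,b) push every point towards b. -/
theorem cofin (hm : Mono G X) {z : G} {p b s s' : X} (hup : ∀ t, p < t → t < b → t < z • t)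
    (hzb : z • b = b) (hs : p < s) (hsb : s < b) (hs' : s' < b) : ∃ K, ∀ k, K ≤ k → s' < z ^ k • s := by
  set v := sSup (Set.range fun k : ℕ => z ^ k • s) with hv
  have hle : ∀ k : ℕ, z ^ k • s ≤ v := fun k => le_sSup ⟨k, rfl⟩
  have h0 : s ≤ v := by simpa using hle 0
  have h1 : v ≤ z⁻¹ • v := by
    refine sSup_le ?_
    rintro _ ⟨k, rfl⟩
    have := hm z⁻¹ _ _ (hle (k + 1))
    rw [← mul_smul, pow_succ', inv_mul_cancel_left] at this
    exact this
  have h2 : z • v ≤ v := by
    have := hm z _ _ h1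
    simpa using this
  have h3 : v ≤ z • v := by
    refine sSup_le ?_
    rintro _ ⟨k, rfl⟩
    have h4 : z ^ k • s ≤ z ^ (k + 1) • s := pow_mono hm (hup s hs hsb).le (Nat.le_succ k)
    refine h4.trans ?_
    show z ^ (k + 1) • s ≤ z • v
    rw [pow_succ', mul_smul]
    exact hm z _ _ (hle k)
  have hvb : v ≤ b := by
    refine sSup_le ?_
    rintro _ ⟨k, rfl⟩
    have := hm (z ^ k) _ _ hsb.le
    rwa [pow_fix hzb] at this
  have hvb' : v = b := by
    by_contra hc
    have h5 : v < b := lt_of_le_of_ne hvb hc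
    have h6 := hup v (hs.trans_le h0) h5
    exact absurd h6 (not_lt.mpr h2)
  rw [← hvb'] at hs'
  obtain ⟨_, ⟨K, rfl⟩, hK⟩ := lt_sSup_iff.mp hs'
  exact ⟨K, fun k hk => lt_of_lt_of_le hK (pow_mono hm (hup s hs hsb).le hk)⟩

end Pool.Agent.H67.EG
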