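/- No linked components in an n-Engel group acting on a complete linear order: alternating chain and ping-pong. -/
import Pool.Agent.H67.EG.A

namespace Pool.Agent.H67.EG

set_option linter.unusedSectionVars false

variable {G : Type*} [Group G] {X : Type*} [CompleteLinearOrder X] [MulAction G X]

/-- a linked point: y fixes a, x moves a, y moves the upper end of the x-component of a. -/
def Lk (x y : G) (a : X) : Prop := y • a = a ∧ x • a ≠ a ∧ y • up x a ≠ up x a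

theorem Lk.next {n : ℕ} (he : Eng G n) (hm : Mono G X) {x y : G} {a : X} (h : Lk x y a) : Lk y x (up x a) := by
  obtain ⟨h1, h2, h3⟩ := h
  refine ⟨up_fix hm x a, h3, fun hc => ?_⟩
  have hp : dn y (up x a) < up x a := dn_lt hm h3
  have hb : up x a < up y (up x a) := lt_up hm h3
  have h4 : x • dn y (up x a) = dn y (up x a) :=
    (stab_eq he hm (hp.trans hb) (dn_fix hm y _) (up_fix hm y _) (fun t ht1 ht2 => comp_move ht1 ht2) x).mpr hc
  have h5 : a ≤ dn y (up x a) := le_dn (le_up x a) h1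
  exact up_move h5 hp h4

def gg (x y : G) (i : ℕ) : G := if Even i then x else y

theorem gg_add_two (x y : G) (i : ℕ) : gg x y (i + 2) = gg x y i := by
  simp [gg, Nat.even_add]

theorem gg_even (x y : G) {i : ℕ} (h : Even i) : gg x y i = x := by simp [gg, h]

theorem gg_odd (x y : G) {i : ℕ} (h : ¬ Even i) : gg x y i = y := by simp [gg, h]

noncomputable def AA (x y : G) (a : X) : ℕ → X
  | 0 => a
  | i + 1 => up (gg x y i) (AA x y a i)

theorem Lk_AA {n : ℕ} (he : Eng G n) (hm : Mono G X) {x y : G} {a : X} (h : Lk x y a) (i : ℕ) :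
    Lk (gg x y i) (gg x y (i + 1)) (AA x y a i) := by
  induction i with
  | zero => simpa [gg, AA] using h
  | succ i ih =>
    have := ih.next he hm
    rw [gg_add_two]
    exact this

/-- two points strictly between the lower end and a moved point. -/
theorem two_points (hm : Mono G X) {g : G} {p b : X} (hp : g • p = p) (hpb : p < b) (hb : g • b ≠ b) :
    ∃ t s : X, p < t ∧ t < s ∧ s < b := by
  rcases lt_or_gt_of_ne hb with h | h
  · refine ⟨g • g • b, g • b, ?_, smul_lt hm g h, h⟩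
    have h1 := smul_lt hm g hpb
    rw [hp] at h1
    have h2 := smul_lt hm g h1
    rwa [hp] at h2
  · have h' : g⁻¹ • b < b := by
      have := smul_lt hm g⁻¹ h; simpa using this
    refine ⟨g⁻¹ • g⁻¹ • b, g⁻¹ • b, ?_, smul_lt hm g⁻¹ h', h'⟩
    have h1 := smul_lt hm g⁻¹ hpb
    rw [inv_fix hp] at h1
    have h2 := smul_lt hm g⁻¹ h1
    rwa [inv_fix hp] at h2

theorem exists_chain {n : ℕ} (he : Eng G n) (hm : Mono G X) {x y : G} {a : X} (h : Lk x y a) :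
    ∃ B P t s : ℕ → X, ∀ i, P i < t i ∧ t i < s i ∧ s i < B i ∧ B i ≤ P (i + 1) ∧
      gg x y (i + 1) • P i = P i ∧ gg x y (i + 1) • B (i + 1) = B (i + 1) ∧
      (∀ z, P i < z → z < B (i + 1) → gg x y (i + 1) • z ≠ z) ∧ gg x y i • B i = B i := by
  have key : ∀ i, ∃ t s : X, dn (gg x y (i + 1)) (AA x y a (i + 1)) < t ∧ t < s ∧ s < AA x y a (i + 1) := by
    intro i
    have hL := Lk_AA he hm h (i + 1)
    exact two_points hm (dn_fix hm _ _) (dn_lt hm hL.2.1) hL.2.1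
  choose t s hts using key
  refine ⟨fun i => AA x y a (i + 1), fun i => dn (gg x y (i + 1)) (AA x y a (i + 1)), t, s, fun i => ?_⟩
  have hL := Lk_AA he hm h (i + 1)
  refine ⟨(hts i).1, (hts i).2.1, (hts i).2.2, ?_, dn_fix hm _ _, up_fix hm _ _, ?_, ?_⟩
  · exact le_dn (le_up _ _) hL.1
  · intro z hz1 hz2
    exact comp_move hz1 hz2
  · have := hL.1
    rwa [gg_add_two] at this

/-- ping-pong on one component. -/
theorem pp_up (hm : Mono G X) {h : G} {p b σ τ s' t' : X} (hup : ∀ t, p < t → t < b → t < h • t)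
    (hp : h • p = p) (hb : h • b = b) (h1 : p < σ) (h2 : σ ≤ τ) (h3 : τ < b) (h4 : s' < b) (h5 : p < t') (h6 : t' < b) :
    ∃ K, ∀ k, K ≤ k → ∀ z, σ ≤ z → z ≤ τ →
      (s' < h ^ k • z ∧ h ^ k • z < b) ∧ (p < (h ^ k)⁻¹ • z ∧ (h ^ k)⁻¹ • z < t') := by
  obtain ⟨K1, hK1⟩ := cofin hm hup hb h1 (h2.trans_lt h3) h4
  obtain ⟨K2, hK2⟩ := cofin hm hup hb h5 h6 h3
  refine ⟨max K1 K2, fun k hk z hz1 hz2 => ⟨⟨?_, ?_⟩, ?_, ?_⟩⟩
  · exact (hK1 k (le_trans (le_max_left _ _) hk)).trans_le (hm _ _ _ hz1)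
  · have := smul_lt hm (h ^ k) (hz2.trans_lt h3)
    rwa [pow_fix hb] at this
  · have := smul_lt hm (h ^ k)⁻¹ (h1.trans_le hz1)
    rwa [inv_fix (pow_fix hp k)] at this
  · have h7 := hK2 k (le_trans (le_max_right _ _) hk)
    have := smul_lt hm (h ^ k)⁻¹ (hz2.trans_lt h7)
    simpa using this

theorem pp (hm : Mono G X) {h : G} {p b σ τ s' t' : X} (hno : ∀ t, p < t → t < b → h • t ≠ t)
    (hp : h • p = p) (hb : h • b = b) (h1 : p < σ) (h2 : σ ≤ τ) (h3 : τ < b) (h4 : s' < b) (h5 : p < t') (h6 : t' < b) :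
    ∃ K, ∀ k, K ≤ k → ∀ z, σ ≤ z → z ≤ τ →
      ((s' < h ^ k • z ∧ h ^ k • z < b) ∨ (p < h ^ k • z ∧ h ^ k • z < t')) ∧
      ((s' < (h ^ k)⁻¹ • z ∧ (h ^ k)⁻¹ • z < b) ∨ (p < (h ^ k)⁻¹ • z ∧ (h ^ k)⁻¹ • z < t')) := by
  have hσb : σ < b := h2.trans_lt h3
  rcases lt_or_gt_of_ne (hno σ h1 hσb) with hd | hu
  · have hno' : ∀ t, p < t → t < b → h⁻¹ • t ≠ t := fun t a1 a2 a3 => hno t a1 a2 (inv_fix_iff.mp a3)
    have hu : σ < h⁻¹ • σ := by
      have := smul_lt hm h⁻¹ hd; simpa using this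
    obtain ⟨K, hK⟩ := pp_up hm (h := h⁻¹) (fun t a1 a2 => dir hm hno' h1 hσb a1 a2 hu) (inv_fix hp) (inv_fix hb)
      h1 h2 h3 h4 h5 h6
    refine ⟨K, fun k hk z hz1 hz2 => ?_⟩
    have h7 := hK k hk z hz1 hz2
    rw [inv_pow, inv_inv] at h7
    exact ⟨Or.inr h7.2, Or.inl h7.1⟩
  · obtain ⟨K, hK⟩ := pp_up hm (h := h) (fun t a1 a2 => dir hm hno h1 hσb a1 a2 hu) hp hb h1 h2 h3 h4 h5 h6
    refine ⟨K, fun k hk z hz1 hz2 => ?_⟩
    have h7 := hK k hk z hz1 hz2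
    exact ⟨Or.inl h7.1, Or.inr h7.2⟩

/-- no linked points. -/
theorem not_Lk {n : ℕ} (he : Eng G n) (hm : Mono G X) {x y : G} {a : X} : ¬ Lk x y a := by
  intro h
  obtain ⟨B, P, t, s, hc⟩ := exists_chain he hm h
  -- blocks
  let N : ℕ → Set X := fun i => {z | s i ≤ z ∧ z ≤ t (i + 1)}
  have hst : ∀ i, s i ≤ t (i + 1) := fun i =>
    ((hc i).2.2.1.le.trans (hc i).2.2.2.1).trans (hc (i + 1)).1.le
  have hBN : ∀ i, B i ∈ N i := fun i => ⟨(hc i).2.2.1.le, (hc i).2.2.2.1.trans (hc (i + 1)).1.le⟩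
  -- one step
  have step : ∀ i, ∃ K, ∀ k, K ≤ k → ∀ z ∈ N (i + 1),
      (gg x y i ^ k • z ∈ N i ∪ N (i + 2)) ∧ ((gg x y i ^ k)⁻¹ • z ∈ N i ∪ N (i + 2)) := by
    intro i
    have c0 := hc i
    have c1 := hc (i + 1)
    have c2 := hc (i + 2)
    have c3 := hc (i + 3)
    have hg : gg x y (i + 1 + 1) = gg x y i := gg_add_two x y i
    rw [hg] at c1
    obtain ⟨K, hK⟩ := pp hm (h := gg x y i) (p := P (i + 1)) (b := B (i + 2)) (σ := s (i + 1)) (τ := t (i + 2))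
      (s' := s (i + 2)) (t' := t (i + 1)) c1.2.2.2.2.2.2.1 c1.2.2.2.2.1 c1.2.2.2.2.2.1
      (c1.1.trans c1.2.1) (hst (i + 1)) (c2.2.1.trans c2.2.2.1) c2.2.2.1 c1.1
      (c1.2.1.trans (c1.2.2.1.trans_le (c1.2.2.2.1.trans (c2.1.trans (c2.2.1.trans c2.2.2.1)).le)))
    refine ⟨K, fun k hk z hz => ?_⟩
    have h7 := hK k hk z hz.1 hz.2
    have hin : ∀ u : X, ((s (i + 2) < u ∧ u < B (i + 2)) ∨ (P (i + 1) < u ∧ u < t (i + 1))) → u ∈ N i ∪ N (i + 2) := by
      rintro u (⟨h8, h9⟩ | ⟨h8, h9⟩)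
      · exact Or.inr ⟨h8.le, h9.le.trans (c2.2.2.2.1.trans c3.1.le)⟩
      · exact Or.inl ⟨(c0.2.2.1.le.trans c0.2.2.2.1).trans h8.le, h9.le⟩
    exact ⟨hin _ h7.1, hin _ h7.2⟩
  choose Kf hKf using step
  -- uniform exponent
  let L : ℕ := 2 ^ (n + 3)
  let K : ℕ := (Finset.range (L + 1)).sup Kf
  have hK : ∀ i, i ≤ L → ∀ z ∈ N (i + 1),
      (gg x y i ^ K • z ∈ N i ∪ N (i + 2)) ∧ ((gg x y i ^ K)⁻¹ • z ∈ N i ∪ N (i + 2)) := by
    intro i hi
    exact hKf i K (Finset.le_sup (Finset.mem_range.mpr (Nat.lt_succ_of_le hi)))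
  -- the main induction
  have main : ∀ k, ∀ i, Odd i → 2 ^ (k + 1) ≤ i + 1 → i + 2 ^ (k + 1) ≤ L → ∀ z ∈ N i,
      (∃ j, Even j ∧ j < i + 2 ^ (k + 1) ∧ i < j + 2 ^ (k + 1) ∧ w (x ^ K) (y ^ K) k • z ∈ N j) ∧
      (∃ j, Even j ∧ j < i + 2 ^ (k + 1) ∧ i < j + 2 ^ (k + 1) ∧ (w (x ^ K) (y ^ K) k)⁻¹ • z ∈ N j) := by
    intro k
    induction k with
    | zero =>
      intro i hi h1 h2 z hz
      obtain ⟨i', rfl⟩ : ∃ i', i = i' + 1 := ⟨i - 1, by omega⟩
      have he' : Even i' := by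
        rw [Nat.odd_add_one, Nat.not_odd_iff_even] at hi
        exact hi
      have h3 := hK i' (by omega) z hz
      rw [gg_even x y he'] at h3
      have aux : ∀ u : X, u ∈ N i' ∪ N (i' + 2) →
          ∃ j, Even j ∧ j < i' + 1 + 2 ^ (0 + 1) ∧ i' + 1 < j + 2 ^ (0 + 1) ∧ u ∈ N j := by
        rintro u (hu | hu)
        · exact ⟨i', he', by omega, by omega, hu⟩
        · exact ⟨i' + 2, by simp [Nat.even_add, he'], by omega, by omega, hu⟩
      exact ⟨aux _ h3.1, aux _ h3.2⟩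
    | succ k ih =>
      intro i hi h1 h2 z hz
      have hp2 : 2 ^ (k + 1 + 1) = 2 * 2 ^ (k + 1) := by rw [pow_succ]; ring
      have hpos : 1 ≤ 2 ^ (k + 1) := Nat.one_le_two_pow
      rw [hp2] at h1 h2 ⊢
      obtain ⟨j, hj, hj1, hj2, hjz⟩ := (ih i hi (by omega) (by omega) z hz).1
      obtain ⟨j', rfl⟩ : ∃ j', j = j' + 1 := ⟨j - 1, by omega⟩
      have ho' : Odd j' := by
        rw [Nat.even_add_one, Nat.not_even_iff_odd] at hj
        exact hj
      have h3 := hK j' (by omega) _ hjz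
      rw [gg_odd x y (Nat.not_even_iff_odd.mpr ho')] at h3
      have aux : ∀ u : X, u ∈ N j' ∪ N (j' + 2) →
          ∃ j2, Even j2 ∧ j2 < i + 2 * 2 ^ (k + 1) ∧ i < j2 + 2 * 2 ^ (k + 1) ∧
            (w (x ^ K) (y ^ K) k)⁻¹ • u ∈ N j2 := by
        rintro u (hu | hu)
        · obtain ⟨j2, hj2a, hj2b, hj2c, hj2d⟩ := (ih j' ho' (by omega) (by omega) u hu).2
          exact ⟨j2, hj2a, by omega, by omega, hj2d⟩
        · obtain ⟨j2, hj2a, hj2b, hj2c, hj2d⟩ :=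
            (ih (j' + 2) (by simpa [Nat.odd_add] using ho') (by omega) (by omega) u hu).2
          exact ⟨j2, hj2a, by omega, by omega, hj2d⟩
      have e1 : w (x ^ K) (y ^ K) (k + 1) = (w (x ^ K) (y ^ K) k)⁻¹ * y ^ K * w (x ^ K) (y ^ K) k := rfl
      have e2 : (w (x ^ K) (y ^ K) (k + 1))⁻¹ = (w (x ^ K) (y ^ K) k)⁻¹ * (y ^ K)⁻¹ * w (x ^ K) (y ^ K) k := by
        rw [e1]; group
      refine ⟨?_, ?_⟩
      · rw [e1]
        simp only [mul_smul]
        exact aux _ h3.1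
      · rw [e2]
        simp only [mul_smul]
        exact aux _ h3.2
  have hpos : 1 ≤ 2 ^ (n + 2) := Nat.one_le_two_pow
  have hL : L = 2 * 2 ^ (n + 2) := by
    show 2 ^ (n + 3) = _
    rw [pow_succ]; ring
  have hev : Even (2 ^ (n + 2)) := by
    rw [pow_succ]; exact even_two.mul_left _
  obtain ⟨i, hi⟩ : ∃ i, i + 1 = 2 ^ (n + 2) := ⟨2 ^ (n + 2) - 1, by omega⟩
  have hio : Odd i := by
    rw [← hi, Nat.even_add_one, Nat.not_even_iff_odd] at hev
    exact hev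
  have e0 : n + 1 + 1 = n + 2 := rfl
  obtain ⟨j, hj, -, -, hjB⟩ := (main (n + 1) i hio (by rw [e0]; omega) (by rw [e0]; omega) (B i) (hBN i)).1
  rw [w_eq he] at hjB
  have hfix : y ^ K • B i = B i := by
    have h9 := (hc i).2.2.2.2.2.2.2
    rw [gg_odd x y (Nat.not_even_iff_odd.mpr hio)] at h9
    exact pow_fix h9 K
  rw [hfix] at hjB
  have smono : StrictMono s := by
    refine strictMono_nat_of_lt_succ fun i => ?_
    exact (hc i).2.2.1.trans_le ((hc i).2.2.2.1.trans ((hc (i + 1)).1.trans (hc (i + 1)).2.1).le)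
  have disj : ∀ i j, i < j → ∀ u : X, u ∈ N i → u ∈ N j → False := by
    intro i j hij u hu1 hu2
    have h10 : u < s (i + 1) := hu1.2.trans_lt (hc (i + 1)).2.1
    have h11 : s (i + 1) ≤ s j := smono.monotone hij
    exact absurd (h10.trans_le (h11.trans hu2.1)) (lt_irrefl _)
  rcases lt_trichotomy i j with h12 | h12 | h12
  · exact disj i j h12 _ (hBN i) hjB
  · subst h12
    exact (Nat.not_even_iff_odd.mpr hio) hj
  · exact disj j i h12 _ hjB (hBN i)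

/-- THEOREM B: no linked components. -/
theorem no_link {n : ℕ} (he : Eng G n) (hm : Mono G X) (x y : G) (a : X) (h1 : y • a = a) (h2 : x • a ≠ a) :
    y • up x a = up x a := by
  by_contra h3
  exact not_Lk he hm ⟨h1, h2, h3⟩

end Pool.Agent.H67.EG
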