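/- ROW EG/C1 (the normal subgroup). All facts on up, dn, stab_eq, dir, cofin are in EG/A.lean (imported).
   Standing: G acts monotonically on the complete linear order X, n-Engel, NL ('no linked components', proved in EG/B), o a point moved by
   some element, G finitely generated. Write U g = up g o, so U g >= o, U g > o iff g moves o (lt_up), g fixes U g (up_fix).
   (1) U h <= U g  ==>  h fixes U g.  [equal: clear. U h < U g: o <= U h < U g, so g moves U h (up_move), h fixes U h; NL with
       x = g, y = h, a = U h gives h fixes up g (U h) = U g (the last equality: up g of a point of [o, U g) is U g; both inequalities by up_le).]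
   (2) S a finite generating set (Group.FG G; take S a Finset with closure = ⊤); some s in S moves o (else G fixes o); let g0 in S maximise U;
       u := U g0 > o. By (1) every s in S fixes u, so all of G fixes u (closure induction). Hence U g <= u for all g (up_le).
   (3) l := dn g0 o < o; G fixes l (stab_eq for g0 and the component (l,u); comp_move).
   (4) N := {g | U g < u} (carrier). For g not in N: U g = u, and dn g o = l: dn g o is fixed by G (stab_eq for g, since U g = u is fixed by all)
       hence dn g o <= dn g0 o = l, and symmetrically. So g moves all points of (l,u): g ∉ N ↔ g has no fixed point in (l,u)  [g in N: U g in [o,u)].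
       So: g ∈ N ↔ ∃ f, l < f ∧ f < u ∧ g • f = f.   (5) subgroup: 1: f = o. inverse: clear. product g,h: wlog U h >= U g, by (1) g fixes U h,
       h fixes U h, so gh fixes U h in [o,u). Normal: k g k⁻¹ fixes k•f and k fixes l,u.  g0 ∉ N. -/
import Pool.Agent.H67.EG.A

namespace Pool.Agent.H67.EG

theorem exists_normal {G X : Type} [Group G] [CompleteLinearOrder X] [MulAction G X] {n : ℕ} (he : Eng G n)
    (hm : Mono G X) (NL : ∀ (x y : G) (a : X), y • a = a → x • a ≠ a → y • up x a = up x a)
    (o : X) (ho : ∃ g : G, g • o ≠ o) [Group.FG G] :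
    ∃ (l u : X) (N : Subgroup G), l < o ∧ o < u ∧ (∀ g : G, g • l = l) ∧ (∀ g : G, g • u = u) ∧ N.Normal ∧ N ≠ ⊤ ∧
      ∀ g : G, g ∈ N ↔ ∃ f : X, l < f ∧ f < u ∧ g • f = f := by
  classical
  -- (1)
  have key1 : ∀ g h : G, up h o ≤ up g o → h • up g o = up g o := by
    intro g h hle
    rcases eq_or_lt_of_le hle with e | hlt
    · rw [← e]; exact up_fix hm h o
    · have hmove : g • up h o ≠ up h o := up_move (le_up h o) hlt
      have hfix : h • up h o = up h o := up_fix hm h o
      have h3 := NL g h (up h o) hfix hmove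
      have h4 : up g (up h o) = up g o := by
        apply le_antisymm
        · exact up_le hle (up_fix hm g o)
        · exact up_le ((le_up h o).trans (le_up g _)) (up_fix hm g _)
      rwa [h4] at h3
  -- (2)
  obtain ⟨S, hS⟩ := (Group.FG.out : (⊤ : Subgroup G).FG)
  have hgen : ∀ a : X, (∀ s ∈ S, s • a = a) → ∀ g : G, g • a = a := by
    intro a ha g
    have h1 : Subgroup.closure (S : Set G) ≤ MulAction.stabilizer G a := by
      rw [Subgroup.closure_le]
      intro s hs
      exact ha s hs
    have h2 : g ∈ MulAction.stabilizer G a := h1 (hS ▸ Subgroup.mem_top g)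
    exact h2
  have hex : ∃ s ∈ S, s • o ≠ o := by
    by_contra hc
    push Not at hc
    obtain ⟨g, hg⟩ := ho
    exact hg (hgen o hc g)
  obtain ⟨s0, hs0, hs0o⟩ := hex
  obtain ⟨g0, -, hmax⟩ := S.exists_max_image (fun s => up s o) ⟨s0, hs0⟩
  have hu : o < up g0 o := (lt_up hm hs0o).trans_le (hmax s0 hs0)
  have hufix : ∀ g : G, g • up g0 o = up g0 o := hgen _ fun s hs => key1 g0 s (hmax s hs)
  -- (3)
  have hg0o : g0 • o ≠ o := fun h => absurd (up_le le_rfl h) (not_le.mpr hu)
  have hl : dn g0 o < o := dn_lt hm hg0o
  have hlfix : ∀ g : G, g • dn g0 o = dn g0 o := fun g =>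
    (stab_eq he hm (hl.trans hu) (dn_fix hm g0 o) (up_fix hm g0 o) (fun t h1 h2 => comp_move h1 h2) g).mpr (hufix g)
  -- (4)
  have hchar : ∀ g : G, (∃ f : X, dn g0 o < f ∧ f < up g0 o ∧ g • f = f) ↔ up g o < up g0 o := by
    intro g
    constructor
    · rintro ⟨f, hf1, hf2, hf3⟩
      by_contra hc
      have hle : up g o ≤ up g0 o := up_le hu.le (hufix g)
      have heq : up g o = up g0 o := le_antisymm hle (not_lt.mp hc)
      have hgo : g • o ≠ o := fun h => absurd (up_le le_rfl h) (not_le.mpr (heq ▸ hu))
      have h1 : dn g o < up g o := (dn_lt hm hgo).trans (lt_up hm hgo)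
      have h2 : g0 • dn g o = dn g o :=
        (stab_eq he hm h1 (dn_fix hm g o) (up_fix hm g o) (fun t h1 h2 => comp_move h1 h2) g0).mpr
          (by rw [heq]; exact hufix g0)
      have h3 : dn g o ≤ dn g0 o := le_dn (dn_le g o) h2
      exact comp_move (h3.trans_lt hf1) (heq ▸ hf2) hf3
    · intro h
      exact ⟨up g o, hl.trans_le (le_up g o), h, up_fix hm g o⟩
  -- (5)
  let N : Subgroup G :=
    { carrier := {g | ∃ f : X, dn g0 o < f ∧ f < up g0 o ∧ g • f = f}
      one_mem' := ⟨o, hl, hu, one_smul G o⟩
      inv_mem' := by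
        rintro g ⟨f, h1, h2, h3⟩
        exact ⟨f, h1, h2, inv_fix h3⟩
      mul_mem' := by
        intro g h hg hh
        have hg' := (hchar g).mp hg
        have hh' := (hchar h).mp hh
        rcases le_total (up g o) (up h o) with hle | hle
        · refine ⟨up h o, hl.trans_le (le_up h o), hh', ?_⟩
          rw [mul_smul, up_fix hm h o]
          exact key1 h g hle
        · refine ⟨up g o, hl.trans_le (le_up g o), hg', ?_⟩
          rw [mul_smul, key1 g h hle]
          exact up_fix hm g o }
  refine ⟨dn g0 o, up g0 o, N, hl, hu, hlfix, hufix, ⟨?_⟩, ?_, fun g => Iff.rfl⟩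
  · rintro g ⟨f, h1, h2, h3⟩ k
    refine ⟨k • f, ?_, ?_, ?_⟩
    · have := smul_lt hm k h1
      rwa [hlfix k] at this
    · have := smul_lt hm k h2
      rwa [hufix k] at this
    · rw [mul_smul, mul_smul, inv_smul_smul, h3]
  · intro hN
    have h1 : g0 ∈ N := by rw [hN]; exact Subgroup.mem_top g0
    have h2 := (hchar g0).mp h1
    exact lt_irrefl _ h2

end Pool.Agent.H67.EG
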