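/- ROW EG/C2 (steps (6), (7) of the header of EG/C.lean). All facts on up, dn, stab_eq, dir, cofin, pow_fix, inv_fix are in EG/A.lean.
   Standing: l < o < u, G fixes l and u, N normal and g ∈ N ↔ g has a fixed point in (l,u).
   (6) Up g := ∀ t, l < t → t < u → t < g•t. g ∉ N → Up g ∨ Up g⁻¹ (dir with the point o; the inverse moves the other way). Up g → g ∉ N.
       Up g → Up (k g k⁻¹) (k fixes l,u). Up g, h ∈ N → Up (g h) [h fixes some f; g h f = g f > f; gh ∉ N; dir]. Up g → Up (g^k), k>0 (so g^k ∉ N):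
       gives the torsion-free statement.
   (7) commutators in N. Suppose x⁻¹y⁻¹xy = E x y 1 ∉ N. E x y n = 1 ∈ N, so there is j >= 1 with E x y j ∉ N, E x y (j+1) ∈ N (n >= 2; or
       least j' > 1 with E x y j' ∈ N, j = j' - 1; note E x y k = 1 for k >= n). d := E x y (j-1), c := E x y j = d⁻¹y⁻¹dy ∉ N, c⁻¹y⁻¹cy ∈ N.
       y ∉ N (else c ∈ N by normality). Mod N: y^(-k) d y^k ≡ d c^k for all k in ℤ (or for naturals k, and for y⁻¹, c⁻¹ in place of y, c).
       η := y or y⁻¹ with Up η; m with d•o < η^m•o (cofin; d•o < u). v := η^(-m) d, v•o < o, so ¬ Up v, and ¬ Up (y^(-k) v y^k) for all k;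
       y^(-k) v y^k ≡ v c^k mod N. κ := c or c⁻¹ with Up κ; cofin: for all large K, κ^K•o > v⁻¹•o, so v κ^K • o > o. If v κ^K ∉ N then Up (v κ^K)
       (dir), so Up of every element of its class, contradiction. So v κ^K ∈ N and v κ^(K+1) ∈ N, κ ∈ N, contradiction. -/
import Pool.Agent.H67.EG.A

namespace Pool.Agent.H67.EG

theorem comm_mem {G X : Type} [Group G] [CompleteLinearOrder X] [MulAction G X] {n : ℕ} (he : Eng G n)
    (hm : Mono G X) (l u o : X) (hlo : l < o) (hou : o < u) (hl : ∀ g : G, g • l = l) (hu : ∀ g : G, g • u = u)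
    (N : Subgroup G) [N.Normal] (hN : ∀ g : G, g ∈ N ↔ ∃ f : X, l < f ∧ f < u ∧ g • f = f) :
    (∀ x y : G, x⁻¹ * y⁻¹ * x * y ∈ N) ∧ (∀ (g : G) (k : ℕ), 0 < k → g ^ k ∈ N → g ∈ N) := by
  have hnofix : ∀ g : G, g ∉ N → ∀ t, l < t → t < u → g • t ≠ t := by
    intro g hg t h1 h2 h3
    exact hg ((hN g).mpr ⟨t, h1, h2, h3⟩)
  have hin1 : ∀ (g : G) (t : X), l < t → l < g • t := by
    intro g t h
    have := smul_lt hm g h
    rwa [hl g] at this
  have hin2 : ∀ (g : G) (t : X), t < u → g • t < u := by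
    intro g t h
    have := smul_lt hm g h
    rwa [hu g] at this
  -- an element outside N moving o up moves everything up
  have hup : ∀ g : G, g ∉ N → o < g • o → ∀ t, l < t → t < u → t < g • t := by
    intro g hg h t h1 h2
    exact dir hm (hnofix g hg) hlo hou h1 h2 h
  have hupor : ∀ g : G, g ∉ N → (∀ t, l < t → t < u → t < g • t) ∨ (∀ t, l < t → t < u → t < g⁻¹ • t) := by
    intro g hg
    rcases lt_or_gt_of_ne (hnofix g hg o hlo hou) with h | h
    · right
      have hg' : g⁻¹ ∉ N := fun h' => hg (by simpa using N.inv_mem h')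
      refine hup g⁻¹ hg' ?_
      have := smul_lt hm g⁻¹ h
      simpa using this
    · left
      exact hup g hg h
  have hupN : ∀ g : G, (∀ t, l < t → t < u → t < g • t) → g ∉ N := by
    intro g hg h
    obtain ⟨f, h1, h2, h3⟩ := (hN g).mp h
    have := hg f h1 h2
    rw [h3] at this
    exact lt_irrefl _ this
  have hupconj : ∀ g k : G, (∀ t, l < t → t < u → t < (k⁻¹ * g * k) • t) → ∀ t, l < t → t < u → t < g • t := by
    intro g k h t h1 h2
    have h3 := h (k⁻¹ • t) (hin1 _ _ h1) (hin2 _ _ h2)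
    have h4 := smul_lt hm k h3
    simpa [mul_smul] using h4
  have hupmul : ∀ g g' : G, (∀ t, l < t → t < u → t < g • t) → g⁻¹ * g' ∈ N → ∀ t, l < t → t < u → t < g' • t := by
    intro g g' h h'
    obtain ⟨f, h1, h2, h3⟩ := (hN _).mp h'
    have hg' : g' ∉ N := by
      intro h4
      refine hupN g h ?_
      have h5 : g = g' * (g⁻¹ * g')⁻¹ := by group
      rw [h5]
      exact N.mul_mem h4 (N.inv_mem h')
    have h6 : f < g' • f := by
      have h7 := h f h1 h2
      have h8 : g' • f = g • f := by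
        conv_lhs => rw [show g' = g * (g⁻¹ * g') by group, mul_smul, h3]
      rw [h8]
      exact h7
    intro t ht1 ht2
    exact dir hm (hnofix g' hg') h1 h2 ht1 ht2 h6
  have huppow : ∀ g : G, (∀ t, l < t → t < u → t < g • t) → ∀ k : ℕ, 0 < k → ∀ t, l < t → t < u → t < g ^ k • t := by
    intro g h k hk
    induction k with
    | zero => exact absurd hk (lt_irrefl _)
    | succ k ih =>
      intro t h1 h2
      rcases Nat.eq_zero_or_pos k with h0 | h0
      · subst h0; simpa using h t h1 h2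
      · rw [pow_succ, mul_smul]
        exact (h t h1 h2).trans (ih h0 _ (hin1 g t h1) (hin2 g t h2))
  constructor
  · intro x y
    by_contra hxy
    -- the quotient
    set π := QuotientGroup.mk' N with hπ
    have hπ1 : ∀ g : G, π g = 1 ↔ g ∈ N := fun g => QuotientGroup.eq_one_iff g
    have hEn : ∃ j, π (E x y (j + 1)) = 1 := by
      refine ⟨n, ?_⟩
      have : E x y (n + 1) = (E x y n)⁻¹ * y⁻¹ * E x y n * y := rfl
      rw [this, he x y]
      simp
    classical
    obtain ⟨i, hi1, hi2⟩ : ∃ i, π (E x y (i + 1)) ≠ 1 ∧ π (E x y (i + 1 + 1)) = 1 := by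
      have h0 : Nat.find hEn ≠ 0 := by
        intro h
        have h1 := Nat.find_spec hEn
        rw [h] at h1
        exact hxy ((hπ1 _).mp h1)
      obtain ⟨i, hi⟩ := Nat.exists_eq_succ_of_ne_zero h0
      refine ⟨i, Nat.find_min hEn (by omega), ?_⟩
      have h1 := Nat.find_spec hEn
      rw [hi] at h1
      exact h1
    set d := E x y i with hd
    set c := E x y (i + 1) with hc
    have hcd : c = d⁻¹ * y⁻¹ * d * y := rfl
    have hcy : E x y (i + 1 + 1) = c⁻¹ * y⁻¹ * c * y := rfl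
    rw [hcy] at hi2
    set D := π d with hD
    set C := π c with hC
    set Y := π y with hY
    have e1 : C = D⁻¹ * Y⁻¹ * D * Y := by
      rw [hC, hcd]; simp [hD, hY]
    have e2 : C⁻¹ * Y⁻¹ * C * Y = 1 := by
      rw [← hi2]; simp [hC, hY]
    have e3 : Commute Y C := by
      have : C * Y = Y * C := by
        have h5 : C * Y = Y * C * (C⁻¹ * Y⁻¹ * C * Y) := by group
        rw [h5, e2, mul_one]
      exact this.symm
    have hY1 : Y ≠ 1 := by
      intro h
      refine hi1 ?_
      rw [e1, h]; group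
    have hyN : y ∉ N := fun h => hY1 ((hπ1 y).mpr h)
    have hcN : c ∉ N := fun h => hi1 ((hπ1 c).mpr h)
    -- conjugation formula
    have hconj : ∀ (Y' C' : G ⧸ N), Y'⁻¹ * D * Y' = D * C' → Commute Y' C' → ∀ k : ℕ,
        (Y' ^ k)⁻¹ * D * Y' ^ k = D * C' ^ k := by
      intro Y' C' h1 h2 k
      induction k with
      | zero => simp
      | succ k ih =>
        have h3 : (Y' ^ (k + 1))⁻¹ * D * Y' ^ (k + 1) = Y'⁻¹ * ((Y' ^ k)⁻¹ * D * Y' ^ k) * Y' := by
          rw [pow_succ]; group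
        rw [h3, ih]
        have h4 : C' ^ k * Y' = Y' * C' ^ k := (h2.symm.pow_left k).eq
        calc Y'⁻¹ * (D * C' ^ k) * Y' = Y'⁻¹ * D * (C' ^ k * Y') := by group
          _ = (Y'⁻¹ * D * Y') * C' ^ k := by rw [h4]; group
          _ = D * C' ^ (k + 1) := by rw [h1, pow_succ', mul_assoc]
    -- κ with Up κ, and y' accordingly
    obtain ⟨κ, y', hκ, hκN, hf1, hf2, hf3⟩ : ∃ κ y' : G, (∀ t, l < t → t < u → t < κ • t) ∧ κ ∉ N ∧
        (π y')⁻¹ * D * π y' = D * π κ ∧ Commute (π y') (π κ) ∧ Commute (π y') Y := by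
      rcases hupor c hcN with h | h
      · refine ⟨c, y, h, hcN, ?_, e3, Commute.refl _⟩
        show Y⁻¹ * D * Y = D * C
        rw [e1]; group
      · refine ⟨c⁻¹, y⁻¹, h, hupN _ h, ?_, ?_, ?_⟩
        · rw [map_inv, map_inv]
          show (Y⁻¹)⁻¹ * D * Y⁻¹ = D * C⁻¹
          have h1 : C⁻¹ = Y * C⁻¹ * Y⁻¹ := by
            rw [(e3.inv_right).eq]; group
          rw [h1, e1]; group
        · rw [map_inv, map_inv]
          exact e3.inv_inv
        · rw [map_inv]
          exact (Commute.refl Y).inv_left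
    -- η with Up η
    obtain ⟨η, hη, hη2⟩ : ∃ η : G, (∀ t, l < t → t < u → t < η • t) ∧ Commute (π y') (π η) := by
      rcases hupor y hyN with h | h
      · exact ⟨y, h, hf3⟩
      · refine ⟨y⁻¹, h, ?_⟩
        rw [map_inv]
        exact hf3.inv_right
    obtain ⟨m, hmm⟩ := cofin hm hη (hu η) hlo hou (hin2 d o hou)
    have hm1 := hmm m le_rfl
    set v := (η ^ m)⁻¹ * d with hv
    have hvo : v • o < o := by
      have := smul_lt hm (η ^ m)⁻¹ hm1
      rw [hv, mul_smul]
      simpa using this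
    have hvc : ∀ (k : ℕ) (g : G), π g = π v * π κ ^ k → ¬ (∀ t, l < t → t < u → t < g • t) := by
      intro k g hg hgu
      have h1 : ∀ t, l < t → t < u → t < ((y' ^ k)⁻¹ * v * y' ^ k) • t := by
        refine hupmul g _ hgu ?_
        rw [← hπ1]
        have h2 : π ((y' ^ k)⁻¹ * v * y' ^ k) = π v * π κ ^ k := by
          have h3 := hconj _ _ hf1 hf2 k
          have h4 : Commute ((π y') ^ k)⁻¹ (((π η) ^ m)⁻¹) := ((hη2.pow_pow k m).inv_inv)
          calc π ((y' ^ k)⁻¹ * v * y' ^ k) = ((π y') ^ k)⁻¹ * (((π η) ^ m)⁻¹ * D) * (π y') ^ k := by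
                rw [hv]; simp [hD]
            _ = (((π y') ^ k)⁻¹ * ((π η) ^ m)⁻¹) * D * (π y') ^ k := by group
            _ = ((π η) ^ m)⁻¹ * (((π y') ^ k)⁻¹ * D * (π y') ^ k) := by rw [h4.eq]; group
            _ = ((π η) ^ m)⁻¹ * (D * π κ ^ k) := by rw [h3]
            _ = π v * π κ ^ k := by rw [hv]; simp [hD, mul_assoc]
        rw [map_mul, map_inv, h2, hg]; group
      have h2 := hupconj v (y' ^ k) h1 o hlo hou
      exact absurd h2 (not_lt.mpr hvo.le)
    obtain ⟨K, hK⟩ := cofin hm hκ (hu κ) hlo hou (hin2 v⁻¹ o hou)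
    have hmem : ∀ k, K ≤ k → v * κ ^ k ∈ N := by
      intro k hk
      by_contra h
      refine hvc k (v * κ ^ k) (by simp) ?_
      refine hup _ h ?_
      have h1 := smul_lt hm v (hK k hk)
      rw [mul_smul]
      simpa using h1
    have h1 := hmem K le_rfl
    have h2 := hmem (K + 1) (Nat.le_succ K)
    refine hκN ?_
    have h3 : κ = (v * κ ^ K)⁻¹ * (v * κ ^ (K + 1)) := by
      rw [pow_succ]; group
    rw [h3]
    exact N.mul_mem (N.inv_mem h1) h2
  · intro g k hk h
    by_contra hg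
    rcases hupor g hg with h1 | h1
    · exact hupN _ (huppow g h1 k hk) h
    · refine hupN _ (huppow g⁻¹ h1 k hk) ?_
      rw [inv_pow]
      exact N.inv_mem h

end Pool.Agent.H67.EG
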