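/- Assembly of EG/C1 and EG/C2. -/
import Pool.Agent.H67.EG.C1
import Pool.Agent.H67.EG.C2

namespace Pool.Agent.H67.EG

theorem normal_subgroup {G X : Type} [Group G] [CompleteLinearOrder X] [MulAction G X] {n : ℕ} (he : Eng G n)
    (hm : Mono G X) (NL : ∀ (x y : G) (a : X), y • a = a → x • a ≠ a → y • up x a = up x a)
    (o : X) (ho : ∃ g : G, g • o ≠ o) [Group.FG G] :
    ∃ N : Subgroup G, N.Normal ∧ N ≠ ⊤ ∧ (∀ x y : G, x⁻¹ * y⁻¹ * x * y ∈ N) ∧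
      (∀ (g : G) (k : ℕ), 0 < k → g ^ k ∈ N → g ∈ N) := by
  obtain ⟨l, u, N, hlo, hou, hl, hu, hNn, hNt, hN⟩ := exists_normal he hm NL o ho
  haveI := hNn
  exact ⟨N, hNn, hNt, comm_mem he hm l u o hlo hou hl hu N hN⟩

end Pool.Agent.H67.EG
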