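/- ROW EG/Ca. A circular order is the cyclic order of a linear order with any given least element a.
   Proof: put x < y iff (x = a and y ≠ a) or sbtw a x y (so x ≤ y iff x = a or y ≠ a and btw a x y, or x = y; choose the form you like; note that
   Mathlib has btw a x a for all x, so y = a must be treated apart). Transitivity from sbtw_trans_left / right and cyclicity
   (btw_cyclic_left, sbtw_cyclic), totality from btw_total, antisymmetry from btw_antisymm. Then check the equivalence by cases (x = a, y = a,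
   z = a or none; in the last case it is a statement on the four points a, x, y, z). Build the LinearOrder with
   classical decidability (e.g. via a partial order plus `LinearOrder` structure with `Classical.decRel`, or linearOrderOfSTO). -/
import Pool.Agent.H67.EG.Defs

namespace Pool.Agent.H67.EG

theorem Ca_lt {C : Type*} [CircularOrder C] {x y z : C} (h : btw x y z) (hxy : x ≠ y)
    (hyz : y ≠ z) (hzx : z ≠ x) : sbtw x y z :=
  sbtw_of_btw_not_btw h fun h' => by
    rcases btw_antisymm h h' with h1 | h1 | h1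
    · exact hxy h1
    · exact hyz h1
    · exact hzx h1

/-- the order with least element `a` -/
def Ca_le {C : Type*} [CircularOrder C] (a x y : C) : Prop := x = a ∨ (y ≠ a ∧ btw a x y)

theorem Ca_refl {C : Type*} [CircularOrder C] (a x : C) : Ca_le a x x := by
  by_cases h : x = a
  · exact Or.inl h
  · exact Or.inr ⟨h, btw_refl_right a x⟩

theorem Ca_total {C : Type*} [CircularOrder C] (a x y : C) : Ca_le a x y ∨ Ca_le a y x := by
  by_cases hx : x = a
  · exact Or.inl (Or.inl hx)
  by_cases hy : y = a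
  · exact Or.inr (Or.inl hy)
  rcases btw_total a x y with h | h
  · exact Or.inl (Or.inr ⟨hy, h⟩)
  · exact Or.inr (Or.inr ⟨hx, btw_cyclic_right h⟩)

theorem Ca_antisymm {C : Type*} [CircularOrder C] {a x y : C} (h1 : Ca_le a x y)
    (h2 : Ca_le a y x) : x = y := by
  rcases h1 with h1 | ⟨hy, h1⟩
  · rcases h2 with h2 | ⟨hx, _⟩
    · rw [h1, h2]
    · exact absurd h1 hx
  · rcases h2 with h2 | ⟨hx, h2⟩
    · exact absurd h2 hy
    · rcases btw_antisymm h1 (btw_cyclic_left h2) with h | h | h
      · exact absurd h.symm hx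
      · exact h
      · exact absurd h hy

theorem Ca_trans {C : Type*} [CircularOrder C] {a x y z : C} (h1 : Ca_le a x y)
    (h2 : Ca_le a y z) : Ca_le a x z := by
  rcases h1 with h1 | ⟨hy, h1⟩
  · exact Or.inl h1
  · rcases h2 with h2 | ⟨hz, h2⟩
    · exact absurd h2 hy
    · by_cases hx : x = a
      · exact Or.inl hx
      refine Or.inr ⟨hz, ?_⟩
      by_cases hxy : x = y
      · rw [hxy]; exact h2
      by_cases hyz : y = z
      · rw [← hyz]; exact h1
      exact (sbtw_trans_right (Ca_lt h1 (Ne.symm hx) hxy hy) (Ca_lt h2 (Ne.symm hy) hyz hz)).btw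

theorem Ca_btw {C : Type*} [CircularOrder C] {a x y z : C} (h1 : Ca_le a x y)
    (h2 : Ca_le a y z) : btw x y z := by
  rcases h1 with h1 | ⟨hy, h1⟩
  · rcases h2 with h2 | ⟨_, h2⟩
    · rw [h1, h2]; exact btw_refl_left a z
    · rw [h1]; exact h2
  · rcases h2 with h2 | ⟨hz, h2⟩
    · exact absurd h2 hy
    · by_cases hx : x = a
      · rw [hx]; exact h2
      by_cases hxy : x = y
      · rw [hxy]; exact btw_refl_left y z
      by_cases hyz : y = z
      · rw [hyz]; exact btw_refl_right x z
      have s1 : sbtw a x y := Ca_lt h1 (Ne.symm hx) hxy hy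
      have s2 : sbtw a y z := Ca_lt h2 (Ne.symm hy) hyz hz
      have s3 : sbtw z x y := sbtw_trans_left (sbtw_cyclic_right s2) s1
      exact (sbtw_cyclic_left s3).btw

theorem circ_linear {C : Type} [CircularOrder C] (a : C) :
    ∃ L : LinearOrder C, (∀ x, L.le a x) ∧ ∀ x y z : C, btw x y z ↔
      ((L.le x y ∧ L.le y z) ∨ (L.le y z ∧ L.le z x) ∨ (L.le z x ∧ L.le x y)) := by
  classical
  let L : LinearOrder C :=
    { le := Ca_le a
      lt := fun x y => Ca_le a x y ∧ ¬ Ca_le a y x
      le_refl := Ca_refl a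
      le_trans := fun x y z h1 h2 => Ca_trans h1 h2
      le_antisymm := fun x y h1 h2 => Ca_antisymm h1 h2
      le_total := Ca_total a
      lt_iff_le_not_ge := fun _ _ => Iff.rfl
      toDecidableLE := fun _ _ => Classical.propDecidable _ }
  refine ⟨L, fun x => Or.inl rfl, ?_⟩
  intro x y z
  show btw x y z ↔ ((Ca_le a x y ∧ Ca_le a y z) ∨ (Ca_le a y z ∧ Ca_le a z x) ∨
    (Ca_le a z x ∧ Ca_le a x y))
  constructor
  · intro h
    have deg : btw z y x → ((Ca_le a x y ∧ Ca_le a y z) ∨ (Ca_le a y z ∧ Ca_le a z x) ∨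
        (Ca_le a z x ∧ Ca_le a x y)) := by
      intro h'
      rcases btw_antisymm h h' with e | e | e
      · subst e
        rcases Ca_total a x z with t | t
        · exact Or.inl ⟨Ca_refl a x, t⟩
        · exact Or.inr (Or.inr ⟨t, Ca_refl a x⟩)
      · subst e
        rcases Ca_total a x y with t | t
        · exact Or.inl ⟨t, Ca_refl a y⟩
        · exact Or.inr (Or.inl ⟨Ca_refl a y, t⟩)
      · subst e
        rcases Ca_total a z y with t | t
        · exact Or.inr (Or.inr ⟨Ca_refl a z, t⟩)
        · exact Or.inr (Or.inl ⟨t, Ca_refl a z⟩)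
    rcases Ca_total a x y with t1 | t1 <;> rcases Ca_total a y z with t2 | t2 <;>
      rcases Ca_total a z x with t3 | t3
    · exact Or.inl ⟨t1, t2⟩
    · exact Or.inl ⟨t1, t2⟩
    · exact Or.inr (Or.inr ⟨t3, t1⟩)
    · -- x ≤ z ≤ y
      exact deg (btw_cyclic_left (Ca_btw t3 t2))
    · exact Or.inr (Or.inl ⟨t2, t3⟩)
    · -- y ≤ x ≤ z
      exact deg (btw_cyclic_right (Ca_btw t1 t3))
    · -- z ≤ y ≤ x
      exact deg (Ca_btw t2 t1)
    · exact Or.inr (Or.inr ⟨Ca_trans t2 t1, Ca_trans t3 t2⟩)
  · rintro (⟨h1, h2⟩ | ⟨h1, h2⟩ | ⟨h1, h2⟩)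
    · exact Ca_btw h1 h2
    · exact btw_cyclic_right (Ca_btw h1 h2)
    · exact btw_cyclic_left (Ca_btw h1 h2)

end Pool.Agent.H67.EG
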