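/- ROW EG/Cb. G acts on a linearly ordered set C with least element a, preserving the cyclic order of C. Then a central extension of G acts
   monotonically on Ω = ℤ ×ₗ C (lexicographic), covering the action on C.
   Proof: for g in G put ε_g(x) = 1 if g•x < g•a, else 0, and g̃(m,x) = (m + ε_g(x), g•x). MONOTONE: (m,x) ≤ (m',y).
     m = m', a ≤ x ≤ y: cyc a x y, so cyc (ga) (gx) (gy): either ga ≤ gx ≤ gy (both ε = 0, gx ≤ gy), or gx ≤ gy ≤ ga (gy < ga: both ε = 1;
       gy = ga: y = a, so x = a), or gy ≤ ga ≤ gx (ε(x) = 0; gy < ga: ε(y) = 1; gy = ga: y = a = x).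
     m < m': the only case to check is m' = m+1, ε(x) = 1, ε(y) = 0: gx < ga ≤ gy.
   g̃ commutes with the shift (m,x) ↦ (m+1,x). Γ := the subgroup of G × Equiv.Perm Ω (or G × (Ω ≃o Ω)) of all (g,f) with
     (f ω).2 = g • ω.2, f commutes with the shift, f and f⁻¹ monotone. Contains a lift of every g: g̃ is bijective: injective because
     strictly monotone (or: g̃ m = g̃ m' componentwise) and surjective (given (m,y), take x = g⁻¹y and m - ε_g(x)); its inverse is monotone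
     because Ω is linearly ordered. π = first component. Kernel: f(m,x) = (m + j(x), x), x < y: (0,x) < (0,y) < (1,x) give j(x) ≤ j(y) ≤ j(x)
     [lexicographic], so f = shift^k commutes with all of Γ: central. q = second projection of Ω. -/
import Pool.Agent.H67.EG.Defs

namespace Pool.Agent.H67.EG

/-- translation of the first coordinate -/
private def Tr {C : Type} (n : ℤ) (ω : ℤ ×ₗ C) : ℤ ×ₗ C := toLex ((ofLex ω).1 + n, (ofLex ω).2)

/-- the lift of `g` -/
private noncomputable def gt {G C : Type} [Group G] [LinearOrder C] [MulAction G C] (a : C) (g : G)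
    (ω : ℤ ×ₗ C) : ℤ ×ₗ C :=
  toLex ((ofLex ω).1 + (if g • (ofLex ω).2 < g • a then 1 else 0), g • (ofLex ω).2)

/-- the extension -/
private def Gam (G C : Type) [Group G] [LinearOrder C] [MulAction G C] :
    Subgroup (G × ((ℤ ×ₗ C) ≃o (ℤ ×ₗ C))) where
  carrier := {p | (∀ ω, (ofLex (p.2 ω)).2 = p.1 • (ofLex ω).2) ∧
    ∀ (n : ℤ) ω, p.2 (Tr n ω) = Tr n (p.2 ω)}
  mul_mem' := by
    rintro p q ⟨hp1, hp2⟩ ⟨hq1, hq2⟩
    refine ⟨fun ω => ?_, fun n ω => ?_⟩
    · show (ofLex (p.2 (q.2 ω))).2 = (p.1 * q.1) • (ofLex ω).2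
      rw [hp1, hq1, mul_smul]
    · show p.2 (q.2 (Tr n ω)) = Tr n (p.2 (q.2 ω))
      rw [hq2, hp2]
  one_mem' := by
    refine ⟨fun ω => ?_, fun n ω => rfl⟩
    show (ofLex ω).2 = (1 : G) • (ofLex ω).2
    rw [one_smul]
  inv_mem' := by
    rintro p ⟨hp1, hp2⟩
    refine ⟨fun ω => ?_, fun n ω => ?_⟩
    · show (ofLex (p.2.symm ω)).2 = p.1⁻¹ • (ofLex ω).2
      have h := hp1 (p.2.symm ω)
      rw [OrderIso.apply_symm_apply] at h
      rw [h, inv_smul_smul]
    · show p.2.symm (Tr n ω) = Tr n (p.2.symm ω)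
      apply p.2.injective
      rw [OrderIso.apply_symm_apply, hp2, OrderIso.apply_symm_apply]

private theorem gt_mono {G C : Type} [Group G] [LinearOrder C] [MulAction G C] (a : C)
    (ha : ∀ x : C, a ≤ x)
    (hm : ∀ (g : G) (x y z : C), ((x ≤ y ∧ y ≤ z) ∨ (y ≤ z ∧ z ≤ x) ∨ (z ≤ x ∧ x ≤ y)) →
      ((g • x ≤ g • y ∧ g • y ≤ g • z) ∨ (g • y ≤ g • z ∧ g • z ≤ g • x) ∨ (g • z ≤ g • x ∧ g • x ≤ g • y)))
    (g : G) : Monotone (gt a g) := by
  intro ω ω' h
  obtain ⟨m, x⟩ := ω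
  obtain ⟨m', y⟩ := ω'
  rw [Prod.Lex.le_iff] at h ⊢
  change m < m' ∨ m = m' ∧ x ≤ y at h
  show m + (if g • x < g • a then 1 else 0) < m' + (if g • y < g • a then 1 else 0) ∨
    m + (if g • x < g • a then 1 else 0) = m' + (if g • y < g • a then 1 else 0) ∧ g • x ≤ g • y
  rcases h with h | ⟨rfl, h⟩
  · by_cases hx : g • x < g • a
    · by_cases hy : g • y < g • a
      · rw [if_pos hx, if_pos hy]
        left
        omega
      · rw [if_pos hx, if_neg hy]
        rcases Int.lt_or_eq_of_le (Int.add_one_le_of_lt h) with h1 | h1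
        · left
          omega
        · right
          exact ⟨by omega, hx.le.trans (not_lt.1 hy)⟩
    · rw [if_neg hx]
      left
      split_ifs <;> omega
  · -- same level
    rcases hm g a x y (Or.inl ⟨ha x, h⟩) with ⟨h1, h2⟩ | ⟨h1, h2⟩ | ⟨h1, h2⟩
    · right
      rw [if_neg (not_lt.2 h1), if_neg (not_lt.2 (h1.trans h2))]
      exact ⟨rfl, h2⟩
    · rcases lt_or_eq_of_le h2 with h3 | h3
      · right
        rw [if_pos h3, if_pos (lt_of_le_of_lt h1 h3)]
        exact ⟨rfl, h1⟩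
      · have hy : y = a := smul_left_cancel g h3
        have hx : x = a := le_antisymm (hy ▸ h) (ha x)
        right
        rw [hx, hy]
        exact ⟨rfl, le_rfl⟩
    · rcases lt_or_eq_of_le h1 with h3 | h3
      · left
        rw [if_neg (not_lt.2 h2), if_pos h3]
        omega
      · have hy : y = a := smul_left_cancel g h3
        have hx : x = a := le_antisymm (hy ▸ h) (ha x)
        right
        rw [hx, hy]
        exact ⟨rfl, le_rfl⟩

private theorem gt_inj {G C : Type} [Group G] [LinearOrder C] [MulAction G C] (a : C) (g : G) :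
    Function.Injective (gt a g) := by
  intro ω ω' h
  obtain ⟨m, x⟩ := ω
  obtain ⟨m', y⟩ := ω'
  have h1 : m + (if g • x < g • a then 1 else 0) = m' + (if g • y < g • a then 1 else 0) :=
    congrArg (fun z : ℤ ×ₗ C => (ofLex z).1) h
  have h2 : g • x = g • y := congrArg (fun z : ℤ ×ₗ C => (ofLex z).2) h
  have hxy : x = y := smul_left_cancel g h2
  subst hxy
  have h3 : m = m' := by
    split_ifs at h1 <;> omega
  subst h3
  rfl

private theorem gt_surj {G C : Type} [Group G] [LinearOrder C] [MulAction G C] (a : C) (g : G) :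
    Function.Surjective (gt a g) := by
  intro ω
  obtain ⟨m, y⟩ := ω
  refine ⟨toLex (m - (if y < g • a then 1 else 0), g⁻¹ • y), ?_⟩
  show toLex (m - (if y < g • a then 1 else 0) +
    (if g • (g⁻¹ • y) < g • a then 1 else 0), g • (g⁻¹ • y)) = _
  rw [smul_inv_smul, sub_add_cancel]
  rfl

private theorem ker_shift {C : Type} [LinearOrder C] (a : C)
    (f : (ℤ ×ₗ C) ≃o (ℤ ×ₗ C)) (h1 : ∀ ω, (ofLex (f ω)).2 = (ofLex ω).2)
    (h2 : ∀ (n : ℤ) ω, f (Tr n ω) = Tr n (f ω)) : ∃ k : ℤ, ∀ ω, f ω = Tr k ω := by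
  have key : ∀ x y : C, x < y → (ofLex (f (toLex (0, x)))).1 = (ofLex (f (toLex (0, y)))).1 := by
    intro x y hxy
    have e1 : f (toLex (0, x)) ≤ f (toLex (0, y)) := by
      rw [f.le_iff_le, Prod.Lex.le_iff]
      exact Or.inr ⟨rfl, hxy.le⟩
    have e2 : f (toLex (0, y)) ≤ f (Tr 1 (toLex (0, x))) := by
      rw [f.le_iff_le, Prod.Lex.le_iff]
      left
      show (0 : ℤ) < 0 + 1
      norm_num
    rw [h2] at e2
    rw [Prod.Lex.le_iff] at e1 e2
    have e3 : (ofLex (Tr 1 (f (toLex ((0 : ℤ), x))))).1 = (ofLex (f (toLex ((0 : ℤ), x)))).1 + 1 := rfl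
    have e4 : (ofLex (Tr 1 (f (toLex ((0 : ℤ), x))))).2 = (ofLex (f (toLex ((0 : ℤ), x)))).2 := rfl
    rw [e3, e4, h1, h1] at e2
    have hx : ¬ ((ofLex (toLex ((0 : ℤ), y))).2 ≤ (ofLex (toLex ((0 : ℤ), x))).2) := not_le.2 hxy
    rcases e2 with e2 | ⟨_, e2⟩
    · rcases e1 with e1 | ⟨e1, _⟩
      · omega
      · exact e1
    · exact absurd e2 hx
  refine ⟨(ofLex (f (toLex (0, a)))).1, ?_⟩
  intro ω
  obtain ⟨m, x⟩ := ω
  have hk : (ofLex (f (toLex (0, x)))).1 = (ofLex (f (toLex (0, a)))).1 := by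
    rcases lt_trichotomy x a with h | h | h
    · exact key x a h
    · rw [h]
    · exact (key a x h).symm
  have e0 : (toLex (m, x) : ℤ ×ₗ C) = Tr m (toLex (0, x)) := by
    show toLex (m, x) = toLex (0 + m, x)
    rw [zero_add]
  show f (toLex (m, x)) = toLex (m + (ofLex (f (toLex (0, a)))).1, x)
  rw [e0, h2]
  show toLex ((ofLex (f (toLex (0, x)))).1 + m, (ofLex (f (toLex (0, x)))).2) = _
  rw [h1, hk, add_comm]
  rfl

theorem circ_ext {G C : Type} [Group G] [LinearOrder C] [MulAction G C] (a : C) (ha : ∀ x : C, a ≤ x)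
    (hm : ∀ (g : G) (x y z : C), ((x ≤ y ∧ y ≤ z) ∨ (y ≤ z ∧ z ≤ x) ∨ (z ≤ x ∧ x ≤ y)) →
      ((g • x ≤ g • y ∧ g • y ≤ g • z) ∨ (g • y ≤ g • z ∧ g • z ≤ g • x) ∨ (g • z ≤ g • x ∧ g • x ≤ g • y))) :
    ∃ (Γ : Type) (_ : Group Γ) (π : Γ →* G) (Ω : Type) (_ : LinearOrder Ω) (_ : MulAction Γ Ω) (q : Ω → C),
      Function.Surjective π ∧ π.ker ≤ Subgroup.center Γ ∧ (∀ (γ : Γ) (s t : Ω), s ≤ t → γ • s ≤ γ • t) ∧
      Function.Surjective q ∧ ∀ (γ : Γ) (s : Ω), q (γ • s) = π γ • q s := by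
  have hlift : ∀ g : G, ∃ γ : Gam G C, γ.1.1 = g := by
    intro g
    have hs : StrictMono (gt a g) := (gt_mono a ha hm g).strictMono_of_injective (gt_inj a g)
    refine ⟨⟨(g, hs.orderIsoOfSurjective _ (gt_surj a g)), fun ω => rfl, fun n ω => ?_⟩, rfl⟩
    show gt a g (Tr n ω) = Tr n (gt a g ω)
    show toLex ((ofLex ω).1 + n + (if g • (ofLex ω).2 < g • a then 1 else 0), g • (ofLex ω).2) =
      toLex ((ofLex ω).1 + (if g • (ofLex ω).2 < g • a then 1 else 0) + n, g • (ofLex ω).2)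
    rw [add_right_comm]
  let act : MulAction (Gam G C) (ℤ ×ₗ C) :=
    { smul := fun γ ω => γ.1.2 ω
      one_smul := fun ω => rfl
      mul_smul := fun γ δ ω => rfl }
  refine ⟨Gam G C, inferInstance, (MonoidHom.fst G ((ℤ ×ₗ C) ≃o (ℤ ×ₗ C))).comp (Gam G C).subtype,
    ℤ ×ₗ C, inferInstance, act, fun ω => (ofLex ω).2, ?_, ?_, ?_, ?_, ?_⟩
  · intro g
    obtain ⟨γ, hγ⟩ := hlift g
    exact ⟨γ, hγ⟩
  · intro γ hγ
    have h1 : γ.1.1 = 1 := hγ
    obtain ⟨k, hk⟩ := ker_shift a γ.1.2 (fun ω => by rw [γ.2.1 ω, h1, one_smul]) γ.2.2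
    rw [Subgroup.mem_center_iff]
    intro δ
    apply Subtype.ext
    apply Prod.ext
    · show δ.1.1 * γ.1.1 = γ.1.1 * δ.1.1
      rw [h1, mul_one, one_mul]
    · apply RelIso.ext
      intro ω
      show δ.1.2 (γ.1.2 ω) = γ.1.2 (δ.1.2 ω)
      rw [hk, hk, δ.2.2]
  · intro γ s t hst
    exact γ.1.2.monotone hst
  · intro c
    exact ⟨toLex (0, c), rfl⟩
  · intro γ s
    exact γ.2.1 s

end Pool.Agent.H67.EG
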