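/- ROW EG/Con (every left order is Conradian). A.lean: up, dn, stab_eq, dir, comp_move, fix_between; NL = Theorem B (no_link of EG/B.lean).
   Proof. Suppose f•g•g•o ≤ g•o. o < g o < w := g g o. f moves o up and w down: fix_between gives p, o < p < w, f p = p.
   p1 := dn f w, c := up f w (f w ≠ w). p <= p1 (le_dn), p1 = f p1 < f w <= g o, p1 < w < c. u := up g o; g moves o, so o < u, g o < g u = u, w < u.
   o < p1 < u so g moves p1 (up_move), p1 < g p1 (dir, on the component of g; the point o is moved up), up g p1 = u.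
   NL (x = g, y = f, a = p1): f fixes u; so c <= u (up_le).
   Case c = u: stab_eq for f and (p1,u) [comp_move]: g u = u (up_fix) gives g p1 = p1, contradiction.
   Case c < u: c < g c (dir). f' := g f g⁻¹. p1 < g p1 < g g o = w < c < g c. f' fixes g p1; f moves g p1 (comp_move); up f (g p1) = c
   (g p1 is in the component (p1,c) of f: <= by up_le; >= : up f (g p1) is fixed by f and > p1, if it were < c, comp_move).
   NL (x = f, y = f', a = g p1): f' fixes c, i.e. f fixes g⁻¹ c, but p1 < g⁻¹ c < c (p1 < g⁻¹c because g p1 < c): comp_move, contradiction. -/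
import Pool.Agent.H67.EG.A

namespace Pool.Agent.H67.EG

theorem conradian {G X : Type} [Group G] [CompleteLinearOrder X] [MulAction G X] {n : ℕ} (he : Eng G n)
    (hm : Mono G X) (NL : ∀ (x y : G) (a : X), y • a = a → x • a ≠ a → y • up x a = up x a)
    (o : X) (f g : G) (h1 : o < f • o) (h2 : o < g • o) : g • o < f • g • g • o := by
  by_contra hcon
  have h3 : f • g • g • o ≤ g • o := not_lt.mp hcon
  have h4 : g • o < g • g • o := smul_lt hm g h2
  obtain ⟨v, hv⟩ : ∃ v : X, v = g • g • o := ⟨_, rfl⟩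
  rw [← hv] at h3 h4
  have h5 : o < v := h2.trans h4
  have h6 : f • v < v := lt_of_le_of_lt h3 h4
  obtain ⟨p, hp1, hp2, hp3⟩ := fix_between hm h5 h1 h6
  obtain ⟨p₁, hp₁⟩ : ∃ p₁ : X, p₁ = dn f v := ⟨_, rfl⟩
  obtain ⟨c, hc⟩ : ∃ c : X, c = up f v := ⟨_, rfl⟩
  have q1 : p ≤ p₁ := by
    rw [hp₁]
    exact le_dn hp2.le hp3
  have q2 : p₁ < v := by
    rw [hp₁]
    exact dn_lt hm h6.ne
  have q3 : v < c := by
    rw [hc]
    exact lt_up hm h6.ne
  have q4 : f • p₁ = p₁ := by
    rw [hp₁]
    exact dn_fix hm f v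
  have q5 : f • c = c := by
    rw [hc]
    exact up_fix hm f v
  have qm : ∀ t, p₁ < t → t < c → f • t ≠ t := by
    intro t ht1 ht2
    rw [hp₁] at ht1
    rw [hc] at ht2
    exact comp_move ht1 ht2
  have q6 : p₁ < g • o := by
    have := smul_lt hm f q2
    rw [q4] at this
    exact lt_of_lt_of_le this h3
  have q7 : o < p₁ := lt_of_lt_of_le hp1 q1
  obtain ⟨u, hu⟩ : ∃ u : X, u = up g o := ⟨_, rfl⟩
  have u1 : o < u := by
    rw [hu]
    exact lt_up hm h2.ne'
  have u2 : g • u = u := by
    rw [hu]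
    exact up_fix hm g o
  have u3 : g • o < u := by
    have := smul_lt hm g u1
    rwa [u2] at this
  have u4 : v < u := by
    have := smul_lt hm g u3
    rwa [u2, ← hv] at this
  have hno : ∀ s, dn g o < s → s < u → g • s ≠ s := by
    intro s hs1 hs2
    rw [hu] at hs2
    exact comp_move hs1 hs2
  have hdn : dn g o < o := dn_lt hm h2.ne'
  have u5 : p₁ < u := q6.trans u3
  have u6 : p₁ < g • p₁ := dir hm hno hdn u1 (hdn.trans q7) u5 h2
  have u7 : up g p₁ = u := by
    refine le_antisymm (up_le u5.le u2) ?_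
    rw [hu]
    exact up_le (q7.le.trans (le_up g p₁)) (up_fix hm g p₁)
  have u8 : f • u = u := by
    have := NL g f p₁ q4 u6.ne'
    rwa [u7] at this
  have u9 : c ≤ u := by
    rw [hc]
    exact up_le u4.le u8
  rcases u9.lt_or_eq with hcu | hcu
  · have c1 : c < g • c := dir hm hno hdn u1 (hdn.trans (h5.trans q3)) hcu h2
    have c2 : g • p₁ < v := by
      have := smul_lt hm g q6
      rwa [← hv] at this
    have c3 : g • p₁ < c := c2.trans q3
    have c4 : f • g • p₁ ≠ g • p₁ := qm _ u6 c3
    have c5 : up f (g • p₁) = c := by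
      refine le_antisymm (up_le c3.le q5) ?_
      by_contra hlt
      exact qm _ (lt_of_lt_of_le u6 (le_up f _)) (not_le.mp hlt) (up_fix hm f _)
    have c6 : (g * f * g⁻¹) • g • p₁ = g • p₁ := by
      rw [mul_smul, inv_smul_smul, mul_smul, q4]
    have c7 := NL f (g * f * g⁻¹) (g • p₁) c6 c4
    rw [c5, mul_smul, mul_smul] at c7
    have c8 : f • g⁻¹ • c = g⁻¹ • c := by
      have := congrArg (fun t => g⁻¹ • t) c7
      simpa using this
    have c9 : p₁ < g⁻¹ • c := by
      have := smul_lt hm g⁻¹ c3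
      simpa using this
    have c10 : g⁻¹ • c < c := by
      have := smul_lt hm g⁻¹ c1
      simpa using this
    exact qm _ c9 c10 c8
  · have s1 := (stab_eq he hm (z := f) (q2.trans q3) q4 q5 qm g).2 (by
      rw [hcu]
      exact u2)
    exact u6.ne' s1

end Pool.Agent.H67.EG
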