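/- G finitely generated, N normal, N ≠ ⊤, all commutators in N, G/N torsion-free: G maps onto ℤ. -/
import Pool.Agent.H67.EG.Defs

namespace Pool.Agent.H67.EG

theorem onto_int {G : Type*} [Group G] [Group.FG G] (N : Subgroup G) [N.Normal] (hN : N ≠ ⊤)
    (hc : ∀ x y : G, x⁻¹ * y⁻¹ * x * y ∈ N) (ht : ∀ (g : G) (k : ℕ), 0 < k → g ^ k ∈ N → g ∈ N) :
    ∃ φ : G →* Multiplicative ℤ, Function.Surjective φ := by
  have hcomm : ∀ a b : G ⧸ N, a * b = b * a := by
    intro a b
    obtain ⟨x, rfl⟩ := QuotientGroup.mk_surjective a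
    obtain ⟨y, rfl⟩ := QuotientGroup.mk_surjective b
    rw [← QuotientGroup.mk_mul, ← QuotientGroup.mk_mul, eq_comm, QuotientGroup.eq]
    have := hc x y
    rw [mul_inv_rev, ← mul_assoc]
    exact this
  let iC : CommGroup (G ⧸ N) := { (inferInstance : Group (G ⧸ N)) with mul_comm := hcomm }
  have hfg : Group.FG (G ⧸ N) := QuotientGroup.fg N
  have hfgA : AddGroup.FG (Additive (G ⧸ N)) := inferInstance
  have hfin : Module.Finite ℤ (Additive (G ⧸ N)) := Module.Finite.iff_addGroup_fg.mpr hfgA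
  have htf0 : IsMulTorsionFree (G ⧸ N) := by
    refine ⟨fun k hk a b hab => ?_⟩
    have hab' : a ^ k = b ^ k := hab
    have h1 : (a * b⁻¹) ^ k = 1 := by rw [mul_pow, inv_pow, hab', mul_inv_cancel]
    obtain ⟨x, hx⟩ := QuotientGroup.mk_surjective (a * b⁻¹)
    rw [← hx, ← QuotientGroup.mk_pow, QuotientGroup.eq_one_iff] at h1
    have h2 := ht x k (Nat.pos_of_ne_zero hk) h1
    have h3 : a * b⁻¹ = 1 := by rw [← hx]; exact (QuotientGroup.eq_one_iff x).mpr h2
    exact mul_inv_eq_one.mp h3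
  have hfree : Module.Free ℤ (Additive (G ⧸ N)) := inferInstance
  let b := Module.Free.chooseBasis ℤ (Additive (G ⧸ N))
  obtain ⟨g, hg⟩ : ∃ g : G, g ∉ N := by
    by_contra h
    push Not at h
    exact hN (top_le_iff.mp fun g _ => h g)
  have hne : Nonempty (Module.Free.ChooseBasisIndex ℤ (Additive (G ⧸ N))) := by
    by_contra h
    rw [not_nonempty_iff] at h
    have : Subsingleton (Additive (G ⧸ N)) := b.repr.toEquiv.subsingleton
    have h2 : (QuotientGroup.mk g : G ⧸ N) = 1 :=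
      (Additive.ofMul.injective (Subsingleton.elim (Additive.ofMul (QuotientGroup.mk g : G ⧸ N)) (Additive.ofMul 1)))
    exact hg ((QuotientGroup.eq_one_iff g).mp h2)
  obtain ⟨i⟩ := hne
  let f : Additive (G ⧸ N) →+ ℤ := (b.coord i).toAddMonoidHom
  refine ⟨(AddMonoidHom.toMultiplicativeRight f).comp (QuotientGroup.mk' N), ?_⟩
  intro m
  obtain ⟨x, hx⟩ := QuotientGroup.mk_surjective ((Additive.toMul (m.toAdd • b i) : G ⧸ N))
  refine ⟨x, ?_⟩
  show Multiplicative.ofAdd (f (Additive.ofMul (QuotientGroup.mk x : G ⧸ N))) = m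
  rw [hx]
  show Multiplicative.ofAdd (b.coord i (m.toAdd • b i)) = m
  rw [map_smul, Module.Basis.coord_apply, Module.Basis.repr_self, Finsupp.single_eq_same, smul_eq_mul, mul_one]
  rfl

end Pool.Agent.H67.EG
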