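/- ROW EG/F. A group acting monotonically on a linear order Ω acts monotonically on the complete linear order LowerSet Ω by
   g • I = {x : g⁻¹ • x in I}, and Ω embeds equivariantly and strictly monotonically by a ↦ Iic a. In particular a left-ordered
   group acts on a complete linear order with a point whose stabiliser is trivial. -/
import Pool.Agent.H67.EG.Defs

namespace Pool.Agent.H67.EG

/-- The translate of a lower set. -/
private def act {G Ω : Type} [Group G] [LinearOrder Ω] [MulAction G Ω]
    (hl : ∀ (g : G) (a b : Ω), a ≤ b → g • a ≤ g • b) (g : G) (I : LowerSet Ω) : LowerSet Ω where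
  carrier := {x | g⁻¹ • x ∈ I}
  lower' := by
    intro a b hba ha
    exact I.lower (hl g⁻¹ b a hba) ha

private lemma mem_act {G Ω : Type} [Group G] [LinearOrder Ω] [MulAction G Ω]
    (hl : ∀ (g : G) (a b : Ω), a ≤ b → g • a ≤ g • b) (g : G) (I : LowerSet Ω) (x : Ω) :
    x ∈ act hl g I ↔ g⁻¹ • x ∈ I := Iff.rfl

/-- A monotone action on a linear order extends to a monotone action on a complete linear order. -/
theorem exists_action {G Ω : Type} [Group G] [LinearOrder Ω] [MulAction G Ω]
    (hl : ∀ (g : G) (a b : Ω), a ≤ b → g • a ≤ g • b) :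
    ∃ (X : Type) (_ : CompleteLinearOrder X) (_ : MulAction G X), Mono G X ∧
      ∃ ι : Ω → X, (∀ a b, a < b → ι a < ι b) ∧ ∀ (g : G) (a : Ω), g • ι a = ι (g • a) := by
  refine ⟨LowerSet Ω, inferInstance,
    { smul := act hl
      one_smul := ?_
      mul_smul := ?_ }, ?_, LowerSet.Iic, ?_, ?_⟩
  · intro g h I
    apply SetLike.ext
    intro x
    change (g * h)⁻¹ • x ∈ I ↔ h⁻¹ • (g⁻¹ • x) ∈ I
    rw [mul_inv_rev, mul_smul]
  · intro I
    apply SetLike.ext
    intro x
    change (1 : G)⁻¹ • x ∈ I ↔ x ∈ I
    rw [inv_one, one_smul]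
  · intro g I J hIJ
    change act hl g I ≤ act hl g J
    intro x hx
    exact hIJ hx
  · intro a b hab
    exact LowerSet.Iic_strictMono Ω hab
  · intro g a
    change act hl g (LowerSet.Iic a) = LowerSet.Iic (g • a)
    apply SetLike.ext
    intro x
    rw [mem_act, LowerSet.mem_Iic_iff, LowerSet.mem_Iic_iff]
    constructor
    · intro h
      have h1 := hl g _ _ h
      rwa [smul_inv_smul] at h1
    · intro h
      have h1 := hl g⁻¹ _ _ h
      rwa [inv_smul_smul] at h1

/-- A left-ordered group acts monotonically on a complete linear order with a point whose stabiliser is trivial. -/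
theorem exists_action_free {G : Type} [Group G] [LinearOrder G]
    (hl : ∀ a b c : G, a ≤ b → c * a ≤ c * b) :
    ∃ (X : Type) (_ : CompleteLinearOrder X) (_ : MulAction G X), Mono G X ∧
      ∃ o : X, ∀ g : G, g ≠ 1 → g • o ≠ o := by
  obtain ⟨X, i1, i2, hM, ι, h1, h2⟩ := exists_action (G := G) (Ω := G)
    (fun g a b hab => by
      rw [smul_eq_mul, smul_eq_mul]
      exact hl a b g hab)
  refine ⟨X, i1, i2, hM, ι 1, fun g hg h => ?_⟩
  rw [h2, smul_eq_mul, mul_one] at h
  rcases lt_trichotomy g 1 with h3 | h3 | h3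
  · have h4 := h1 _ _ h3
    rw [h] at h4
    exact lt_irrefl _ h4
  · exact hg h3
  · have h4 := h1 _ _ h3
    rw [h] at h4
    exact lt_irrefl _ h4

end Pool.Agent.H67.EG
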