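/- f.g. n-Engel groups acting nontrivially on a linear order map onto ℤ. -/
import Pool.Agent.H67.EG.B
import Pool.Agent.H67.EG.C
import Pool.Agent.H67.EG.D
import Pool.Agent.H67.EG.F
import Pool.Agent.H67.EG.Crd

set_option autoImplicit false

namespace Pool.Agent.H67.EG

theorem E_map {G H : Type} [Group G] [Group H] (f : H →* G) (x y : H) (k : ℕ) : f (E x y k) = E (f x) (f y) k := by
  induction k with
  | zero => rfl
  | succ k ih => simp [E, ih]

theorem eng_sub {G : Type} [Group G] {n : ℕ} (h : Eng G n) (H : Subgroup G) : Eng H n := by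
  intro x y
  have := E_map H.subtype x y n
  rw [h] at this
  exact H.subtype_injective (by rw [this]; simp)

theorem onto {G Ω : Type} [Group G] [Group.FG G] {n : ℕ} (he : Eng G n) [LinearOrder Ω] [MulAction G Ω]
    (hm : ∀ (g : G) (a b : Ω), a ≤ b → g • a ≤ g • b) (hn : ∃ (g : G) (a : Ω), g • a ≠ a) :
    ∃ φ : G →* Multiplicative ℤ, Function.Surjective φ := by
  obtain ⟨X, iX, iA, hM, ι, hι, hιg⟩ := exists_action (G := G) (Ω := Ω) hm
  obtain ⟨g, a, hga⟩ := hn
  have hinj : ∀ a b : Ω, ι a = ι b → a = b := by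
    intro a b hab
    rcases lt_trichotomy a b with h | h | h
    · exact absurd hab (hι a b h).ne
    · exact h
    · exact absurd hab.symm (hι b a h).ne
  obtain ⟨N, hN1, hN2, hN3, hN4⟩ := normal_subgroup he hM (fun x y a => no_link he hM x y a) (ι a)
    ⟨g, fun h => hga (hinj _ _ ((hιg g a).symm.trans h))⟩
  exact onto_int N hN2 hN3 hN4

/-- the version for a subgroup. -/
theorem onto_sub {G Ω : Type} [Group G] {n : ℕ} (he : Eng G n) [LinearOrder Ω] [MulAction G Ω]
    (hm : ∀ (g : G) (a b : Ω), a ≤ b → g • a ≤ g • b) (H : Subgroup G) (hH : H.FG)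
    (hn : ∃ h ∈ H, ∃ a : Ω, h • a ≠ a) :
    ∃ φ : H →* Multiplicative ℤ, Function.Surjective φ := by
  have : Group.FG H := (Group.fg_iff_subgroup_fg H).mpr hH
  obtain ⟨h, hh, a, ha⟩ := hn
  exact onto (eng_sub he H) (Ω := Ω) (fun g a b hab => hm g a b hab) ⟨⟨h, hh⟩, a, ha⟩

/-- every left order is Conradian. -/
theorem conrad {G : Type} [Group G] {n : ℕ} (he : Eng G n) [LinearOrder G]
    (hl : ∀ a b c : G, a ≤ b → c * a ≤ c * b) (a b : G) (ha : 1 < a) (hb : 1 < b) : b < a * b ^ 2 := by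
  obtain ⟨X, iX, iA, hM, ι, hι, hιg⟩ := exists_action (G := G) (Ω := G) (fun g a b h => hl a b g h)
  have h1 : ι 1 < a • ι 1 := by
    rw [hιg, smul_eq_mul, mul_one]; exact hι _ _ ha
  have h2 : ι 1 < b • ι 1 := by
    rw [hιg, smul_eq_mul, mul_one]; exact hι _ _ hb
  have h3 := conradian he hM (fun x y a => no_link he hM x y a) (ι 1) a b h1 h2
  simp only [hιg, smul_eq_mul, mul_one] at h3
  by_contra hc
  rcases (not_lt.mp hc).lt_or_eq with h4 | h4
  · have := hι _ _ h4
    rw [pow_two] at this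
    exact absurd h3 (not_lt.mpr this.le)
  · rw [pow_two] at h4
    rw [h4] at h3
    exact absurd h3 (lt_irrefl _)

end Pool.Agent.H67.EG
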