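/- central extensions of a f.g. infinite simple n-Engel group. -/
import Pool.Agent.H67.EG.Main

set_option autoImplicit false

namespace Pool.Agent.H67.EG

open scoped commutatorElement

/-- an infinite simple group is not commutative. -/
theorem exists_not_comm {G : Type} [Group G] [Infinite G] (hS : IsSimpleGroup G) : ∃ a b : G, a * b ≠ b * a := by
  by_contra hc
  push Not at hc
  have hnorm : ∀ H : Subgroup G, H.Normal := fun H => ⟨fun n hn g => by
    rw [hc g n, mul_inv_cancel_right]; exact hn⟩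
  obtain ⟨g, hg⟩ := exists_ne (1 : G)
  have h1 : Subgroup.zpowers g = ⊤ := by
    rcases hS.eq_bot_or_eq_top_of_normal _ (hnorm (Subgroup.zpowers g)) with h | h
    · exact absurd (Subgroup.zpowers_eq_bot.mp h) hg
    · exact h
  have hfin : ∀ k : ℕ, 0 < k → g ^ k = 1 → False := by
    intro k hk hgk
    have h2 : IsOfFinOrder g := isOfFinOrder_iff_pow_eq_one.mpr ⟨k, hk, hgk⟩
    have h3 : Finite (Subgroup.zpowers g) := h2.finite_zpowers
    rw [h1] at h3
    have h4 : Finite G := Finite.of_equiv _ (Subgroup.topEquiv (G := G)).toEquiv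
    exact not_finite G
  rcases hS.eq_bot_or_eq_top_of_normal _ (hnorm (Subgroup.zpowers (g ^ 2))) with h | h
  · exact hfin 2 (by norm_num) (Subgroup.zpowers_eq_bot.mp h)
  · have h2 : g ∈ Subgroup.zpowers (g ^ 2) := by rw [h]; trivial
    obtain ⟨k, hk⟩ := Subgroup.mem_zpowers_iff.mp h2
    have h3 : g ^ (2 * k - 1) = 1 := by
      rw [zpow_sub, zpow_one, zpow_mul]
      rw [show g ^ (2 : ℤ) = g ^ 2 from zpow_ofNat g 2, hk, mul_inv_cancel]
    have h4 : (2 * k - 1).natAbs ≠ 0 := by omega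
    refine hfin (2 * k - 1).natAbs (Nat.pos_of_ne_zero h4) ?_
    rcases Int.natAbs_eq (2 * k - 1) with h5 | h5
    · rw [h5] at h3
      rwa [zpow_natCast] at h3
    · rw [h5, zpow_neg, inv_eq_one, zpow_natCast] at h3
      exact h3

theorem comm_central {Γ : Type} [Group Γ] {a b c d : Γ} (h1 : c⁻¹ * a ∈ Subgroup.center Γ)
    (h2 : d⁻¹ * b ∈ Subgroup.center Γ) : ⁅a, b⁆ = ⁅c, d⁆ := by
  obtain ⟨z, hz⟩ : ∃ z, z = c⁻¹ * a := ⟨_, rfl⟩
  obtain ⟨t, ht⟩ : ∃ t, t = d⁻¹ * b := ⟨_, rfl⟩
  have ea : a = c * z := by rw [hz]; group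
  have eb : b = d * t := by rw [ht]; group
  rw [← hz] at h1
  rw [← ht] at h2
  have cz : ∀ g, g * z = z * g := fun g => (Subgroup.mem_center_iff.mp h1 g)
  have ct : ∀ g, g * t = t * g := fun g => (Subgroup.mem_center_iff.mp h2 g)
  rw [ea, eb, commutatorElement_def, commutatorElement_def, mul_inv_rev, mul_inv_rev]
  calc c * z * (d * t) * (z⁻¹ * c⁻¹) * (t⁻¹ * d⁻¹)
      = c * (z * (d * t)) * z⁻¹ * c⁻¹ * t⁻¹ * d⁻¹ := by group
    _ = c * ((d * t) * z) * z⁻¹ * c⁻¹ * t⁻¹ * d⁻¹ := by rw [cz]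
    _ = c * d * (t * c⁻¹) * t⁻¹ * d⁻¹ := by group
    _ = c * d * (c⁻¹ * t) * t⁻¹ * d⁻¹ := by rw [ct]
    _ = c * d * c⁻¹ * d⁻¹ := by group

/-- the commutator subgroup of Γ maps onto an infinite simple quotient. -/
theorem comm_onto {G Γ : Type} [Group G] [Group Γ] [Infinite G] (hS : IsSimpleGroup G) (π : Γ →* G)
    (hπ : Function.Surjective π) : ∀ g : G, ∃ d ∈ commutator Γ, π d = g := by
  obtain ⟨a0, b0, hab⟩ := exists_not_comm hS
  have hG : commutator G = ⊤ := by
    rcases hS.eq_bot_or_eq_top_of_normal (commutator G) inferInstance with h | h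
    · exfalso
      have h1 : ⁅a0, b0⁆ ∈ commutator G := Subgroup.commutator_mem_commutator trivial trivial
      rw [h, Subgroup.mem_bot, commutatorElement_eq_one_iff_mul_comm] at h1
      exact hab h1
    · exact h
  intro g
  have h1 : (commutator Γ).map π = commutator G := by
    rw [commutator_def, Subgroup.map_commutator, commutator_def, Subgroup.map_top_of_surjective π hπ]
  have h2 : g ∈ (commutator Γ).map π := by rw [h1, hG]; trivial
  obtain ⟨d, hd, hdg⟩ := h2
  exact ⟨d, hd, hdg⟩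

/-- central extensions: the commutator subgroup acts trivially on every linear order. -/
theorem central_trivial {G Γ Ω : Type} [Group G] [Group Γ] {n : ℕ} (he : Eng G n) [Group.FG G] [Infinite G]
    (hS : IsSimpleGroup G) (π : Γ →* G) (hπ : Function.Surjective π) (hc : π.ker ≤ Subgroup.center Γ)
    [LinearOrder Ω] [MulAction Γ Ω] (hm : ∀ (g : Γ) (a b : Ω), a ≤ b → g • a ≤ g • b) :
    ∀ c ∈ commutator Γ, ∀ a : Ω, c • a = a := by
  -- Γ is (n+1)-Engel
  have heΓ : Eng Γ (n + 1) := by
    intro x y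
    have h1 : E x y n ∈ Subgroup.center Γ := hc (by rw [MonoidHom.mem_ker, E_map]; exact he _ _)
    have h2 := Subgroup.mem_center_iff.mp h1 y⁻¹
    show (E x y n)⁻¹ * y⁻¹ * E x y n * y = 1
    rw [mul_assoc (E x y n)⁻¹, h2]
    group
  have hD := comm_onto hS π hπ
  have hcen : ∀ {a b : Γ}, π a = π b → b⁻¹ * a ∈ Subgroup.center Γ := by
    intro a b hab
    apply hc
    rw [MonoidHom.mem_ker, map_mul, map_inv, hab, inv_mul_cancel]
  -- the commutator subgroup is finitely generated
  have hFG : (commutator Γ).FG := by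
    obtain ⟨S, hSt⟩ := (Group.fg_def (G := G)).mp inferInstance
    choose lift hlift1 hlift2 using hD
    classical
    have hle : Subgroup.closure (lift '' (S : Set G)) ≤ commutator Γ := by
      rw [Subgroup.closure_le]
      rintro _ ⟨s, -, rfl⟩
      exact hlift1 s
    have hmap : (Subgroup.closure (lift '' (S : Set G))).map π = ⊤ := by
      rw [MonoidHom.map_closure, Set.image_image]
      simp only [hlift2, Set.image_id']
      exact hSt
    have hge : commutator Γ ≤ Subgroup.closure (lift '' (S : Set G)) := by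
      rw [commutator_def, Subgroup.commutator_le]
      intro a _ b _
      obtain ⟨a', ha', ea⟩ : ∃ a' ∈ Subgroup.closure (lift '' (S : Set G)), π a' = π a := by
        have : π a ∈ (Subgroup.closure (lift '' (S : Set G))).map π := by rw [hmap]; trivial
        obtain ⟨u, hu, e⟩ := this
        exact ⟨u, hu, e⟩
      obtain ⟨b', hb', eb⟩ : ∃ b' ∈ Subgroup.closure (lift '' (S : Set G)), π b' = π b := by
        have : π b ∈ (Subgroup.closure (lift '' (S : Set G))).map π := by rw [hmap]; trivial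
        obtain ⟨u, hu, e⟩ := this
        exact ⟨u, hu, e⟩
      rw [comm_central (hcen ea.symm) (hcen eb.symm), commutatorElement_def]
      exact mul_mem (mul_mem (mul_mem ha' hb') (inv_mem ha')) (inv_mem hb')
    refine ⟨S.image lift, ?_⟩
    rw [Finset.coe_image]
    exact le_antisymm hle hge
  by_contra hcon
  push Not at hcon
  obtain ⟨c, hcD, a, hca⟩ := hcon
  obtain ⟨φ, hφ⟩ := onto_sub heΓ hm (commutator Γ) hFG ⟨c, hcD, a, hca⟩
  -- but φ is trivial
  have hker : commutator Γ ≤ (φ.ker).map (commutator Γ).subtype := by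
    conv_lhs => rw [commutator_def]
    rw [Subgroup.commutator_le]
    intro a _ b _
    obtain ⟨a', ha', ea⟩ := hD (π a)
    obtain ⟨b', hb', eb⟩ := hD (π b)
    refine ⟨⁅(⟨a', ha'⟩ : commutator Γ), ⟨b', hb'⟩⁆, ?_, ?_⟩
    · show _ ∈ φ.ker
      rw [MonoidHom.mem_ker, map_commutatorElement, commutatorElement_eq_one_iff_mul_comm, mul_comm]
    · rw [map_commutatorElement]
      exact (comm_central (hcen ea.symm) (hcen eb.symm)).symm
  obtain ⟨⟨d, hd⟩, hdφ⟩ := hφ (Multiplicative.ofAdd 1)
  obtain ⟨e, he1, he2⟩ := hker hd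
  have : e = ⟨d, hd⟩ := Subtype.ext he2
  rw [this] at he1
  have h5 : φ ⟨d, hd⟩ = 1 := he1
  rw [h5] at hdφ
  have := congrArg Multiplicative.toAdd hdφ
  simp at this

theorem not_simple_of_onto {G : Type} [Group G] (φ : G →* Multiplicative ℤ) (hφ : Function.Surjective φ) :
    ¬ IsSimpleGroup G := by
  intro hS
  have hN : ((Subgroup.zpowers (Multiplicative.ofAdd (2 : ℤ))).comap φ).Normal := inferInstance
  obtain ⟨g1, hg1⟩ := hφ (Multiplicative.ofAdd 1)
  obtain ⟨g2, hg2⟩ := hφ (Multiplicative.ofAdd 2)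
  rcases hS.eq_bot_or_eq_top_of_normal _ hN with h | h
  · have h2 : g2 ∈ (Subgroup.zpowers (Multiplicative.ofAdd (2 : ℤ))).comap φ := by
      rw [Subgroup.mem_comap, hg2]
      exact Subgroup.mem_zpowers _
    rw [h, Subgroup.mem_bot] at h2
    rw [h2, map_one] at hg2
    have := congrArg Multiplicative.toAdd hg2
    simp at this
  · have h1 : g1 ∈ (Subgroup.zpowers (Multiplicative.ofAdd (2 : ℤ))).comap φ := by
      rw [h]; trivial
    rw [Subgroup.mem_comap, hg1, Subgroup.mem_zpowers_iff] at h1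
    obtain ⟨k, hk⟩ := h1
    have := congrArg Multiplicative.toAdd hk
    simp at this
    omega

end Pool.Agent.H67.EG
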