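/- actions of a f.g. infinite simple n-Engel group on circularly ordered sets are trivial. -/
import Pool.Agent.H67.EG.Z
import Pool.Agent.H67.EG.Ca
import Pool.Agent.H67.EG.Cb

set_option autoImplicit false

namespace Pool.Agent.H67.EG

theorem circ_trivial {G C : Type} [Group G] {n : ℕ} (he : Eng G n) [Group.FG G] [Infinite G]
    (hS : IsSimpleGroup G) [CircularOrder C] [MulAction G C]
    (hm : ∀ (g : G) (a b c : C), btw a b c → btw (g • a) (g • b) (g • c)) (g : G) (x : C) : g • x = x := by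
  obtain ⟨L, hL1, hL2⟩ := circ_linear x
  letI := L
  obtain ⟨Γ, iΓ, π, Ω, iL, iA, q, hπ, hc, hmΩ, hq, hqe⟩ := circ_ext (G := G) (C := C) x hL1
    (fun g a b c h => (hL2 _ _ _).mp (hm g a b c ((hL2 _ _ _).mpr h)))
  obtain ⟨d, hd, hdg⟩ := comm_onto hS π hπ g
  obtain ⟨s, hs⟩ := hq x
  have h1 := central_trivial he hS π hπ hc hmΩ d hd s
  have h2 := hqe d s
  rw [h1, hdg, hs] at h2
  exact h2.symm

end Pool.Agent.H67.EG
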