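/- Real-valued homomorphisms. Setting of EG/C1: l < o < u, G fixes l and u, N normal, g ∈ N iff g has a fixed point in (l,u).
   G/N is commutative (EG/C2) and the elements moving the points of (l,u) up are the positive cone of an archimedean order on G/N;
   Hölder's theorem gives a homomorphism G → ℝ with kernel N, positive only on elements which move o up. -/
import Pool.Agent.H67.EG.B
import Pool.Agent.H67.EG.C
import Pool.Agent.H67.EG.F

set_option autoImplicit false

namespace Pool.Agent.H67.EG

/-- Hölder's theorem for a commutative group with an archimedean strict cone. -/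
theorem holder {Q : Type} [CommGroup Q] (P : Q → Prop) (h1 : ¬ P 1) (hmul : ∀ a b, P a → P b → P (a * b))
    (htot : ∀ a, a ≠ 1 → P a ∨ P a⁻¹) (harch : ∀ a b, P b → ∃ k : ℕ, ¬ P (a * (b ^ k)⁻¹)) :
    ∃ φ : Q →* Multiplicative ℝ, Function.Injective φ ∧ ∀ a, 1 < φ a → P a := by
  classical
  let C : AddGroupCone (Additive Q) :=
    { carrier := {a | Additive.toMul a = 1 ∨ P (Additive.toMul a)}
      zero_mem' := Or.inl rfl
      add_mem' := by
        intro a b ha hb
        rcases ha with ha | ha <;> rcases hb with hb | hb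
        · left
          show Additive.toMul a * Additive.toMul b = 1
          rw [ha, hb, one_mul]
        · right
          show P (Additive.toMul a * Additive.toMul b)
          rw [ha, one_mul]; exact hb
        · right
          show P (Additive.toMul a * Additive.toMul b)
          rw [hb, mul_one]; exact ha
        · right
          exact hmul _ _ ha hb
      eq_zero_of_mem_of_neg_mem' := by
        intro a ha hb
        rcases ha with ha | ha
        · exact ha
        · rcases hb with hb | hb
          · have hb' : (Additive.toMul a)⁻¹ = 1 := hb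
            exact inv_eq_one.mp hb'
          · have hb' : P (Additive.toMul a)⁻¹ := hb
            exact absurd (by simpa using hmul _ _ ha hb') h1 }
  have hC : ∀ a : Additive Q, a ∈ C ↔ (Additive.toMul a = 1 ∨ P (Additive.toMul a)) := fun a => Iff.rfl
  haveI hmem : HasMemOrNegMem C := ⟨by
    intro a
    by_cases h : Additive.toMul a = 1
    · exact Or.inl ((hC a).mpr (Or.inl h))
    · rcases htot _ h with h' | h'
      · exact Or.inl ((hC a).mpr (Or.inr h'))
      · exact Or.inr ((hC _).mpr (Or.inr h'))⟩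
  letI lo : LinearOrder (Additive Q) := LinearOrder.mkOfAddGroupCone C
  haveI om : IsOrderedAddMonoid (Additive Q) := IsOrderedAddMonoid.mkOfCone C
  have hle : ∀ a b : Additive Q, a ≤ b ↔ b - a ∈ C := fun a b => Iff.rfl
  haveI ar : Archimedean (Additive Q) := ⟨by
    intro a b hb
    have hb1 : P (Additive.toMul b) := by
      rcases (hle 0 b).mp hb.le with h | h
      · rw [sub_zero] at h
        exact absurd (show b = 0 from h) hb.ne'
      · rwa [sub_zero] at h
    obtain ⟨k, hk⟩ := harch (Additive.toMul a) _ hb1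
    refine ⟨k, ?_⟩
    by_contra hc
    have hc' : k • b < a := not_le.mp hc
    rcases (hle _ _).mp hc'.le with h | h
    · have h2 : a - k • b = 0 := h
      exact hc'.ne' (sub_eq_zero.mp h2)
    · apply hk
      have h2 : Additive.toMul (a - k • b) = Additive.toMul a * (Additive.toMul b ^ k)⁻¹ := by
        rw [sub_eq_add_neg]; rfl
      rw [h2] at h
      exact h⟩
  obtain ⟨f, hf⟩ := Archimedean.exists_orderAddMonoidHom_real_injective (Additive Q)
  refine ⟨AddMonoidHom.toMultiplicativeRight f.toAddMonoidHom, ?_, ?_⟩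
  · intro a b hab
    have h2 : f (Additive.ofMul a) = f (Additive.ofMul b) := hab
    exact Additive.ofMul.injective (hf h2)
  · intro a ha
    have h2 : 0 < f (Additive.ofMul a) := ha
    have h3 : ¬ (Additive.ofMul a ≤ 0) := by
      intro h
      have := f.monotone' h
      have h4 : f (Additive.ofMul a) ≤ f 0 := this
      rw [map_zero] at h4
      exact absurd h2 (not_lt.mpr h4)
    have h4 : (0 : Additive Q) < Additive.ofMul a := not_le.mp h3
    rcases (hle _ _).mp h4.le with h | h
    · rw [sub_zero] at h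
      exact absurd (show Additive.ofMul a = 0 from h) h4.ne'
    · rw [sub_zero] at h
      exact h

theorem real_hom {G X : Type} [Group G] [CompleteLinearOrder X] [MulAction G X] {n : ℕ} (he : Eng G n)
    (hm : Mono G X) (l u o : X) (hlo : l < o) (hou : o < u) (hl : ∀ g : G, g • l = l) (hu : ∀ g : G, g • u = u)
    (N : Subgroup G) [N.Normal] (hN : ∀ g : G, g ∈ N ↔ ∃ f : X, l < f ∧ f < u ∧ g • f = f) :
    ∃ φ : G →* Multiplicative ℝ, (∀ g, φ g = 1 ↔ g ∈ N) ∧ ∀ g, 1 < φ g → o < g • o := by
  have hnofix : ∀ g : G, g ∉ N → ∀ t, l < t → t < u → g • t ≠ t := by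
    intro g hg t h1 h2 h3
    exact hg ((hN g).mpr ⟨t, h1, h2, h3⟩)
  have hin1 : ∀ (g : G) (t : X), l < t → l < g • t := by
    intro g t h
    have := smul_lt hm g h
    rwa [hl g] at this
  have hin2 : ∀ (g : G) (t : X), t < u → g • t < u := by
    intro g t h
    have := smul_lt hm g h
    rwa [hu g] at this
  have hup : ∀ g : G, g ∉ N → o < g • o → ∀ t, l < t → t < u → t < g • t := by
    intro g hg h t h1 h2
    exact dir hm (hnofix g hg) hlo hou h1 h2 h
  have hupor : ∀ g : G, g ∉ N → (∀ t, l < t → t < u → t < g • t) ∨ (∀ t, l < t → t < u → t < g⁻¹ • t) := by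
    intro g hg
    rcases lt_or_gt_of_ne (hnofix g hg o hlo hou) with h | h
    · right
      have hg' : g⁻¹ ∉ N := fun h' => hg (by simpa using N.inv_mem h')
      refine hup g⁻¹ hg' ?_
      have := smul_lt hm g⁻¹ h
      simpa using this
    · left
      exact hup g hg h
  have hupN : ∀ g : G, (∀ t, l < t → t < u → t < g • t) → g ∉ N := by
    intro g hg h
    obtain ⟨f, h1, h2, h3⟩ := (hN g).mp h
    have := hg f h1 h2
    rw [h3] at this
    exact lt_irrefl _ this
  have hupmul : ∀ g g' : G, (∀ t, l < t → t < u → t < g • t) → g⁻¹ * g' ∈ N → ∀ t, l < t → t < u → t < g' • t := by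
    intro g g' h h'
    obtain ⟨f, h1, h2, h3⟩ := (hN _).mp h'
    have hg' : g' ∉ N := by
      intro h4
      refine hupN g h ?_
      have h5 : g = g' * (g⁻¹ * g')⁻¹ := by group
      rw [h5]
      exact N.mul_mem h4 (N.inv_mem h')
    have h6 : f < g' • f := by
      have h7 := h f h1 h2
      have h8 : g' • f = g • f := by
        conv_lhs => rw [show g' = g * (g⁻¹ * g') by group, mul_smul, h3]
      rw [h8]
      exact h7
    intro t ht1 ht2
    exact dir hm (hnofix g' hg') h1 h2 ht1 ht2 h6
  have hc := (comm_mem he hm l u o hlo hou hl hu N hN).1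
  have hcomm : ∀ a b : G ⧸ N, a * b = b * a := by
    intro a b
    obtain ⟨x, rfl⟩ := QuotientGroup.mk_surjective a
    obtain ⟨y, rfl⟩ := QuotientGroup.mk_surjective b
    rw [← QuotientGroup.mk_mul, ← QuotientGroup.mk_mul, eq_comm, QuotientGroup.eq]
    have := hc x y
    rw [mul_inv_rev, ← mul_assoc]
    exact this
  let iC : CommGroup (G ⧸ N) := { (inferInstance : Group (G ⧸ N)) with mul_comm := hcomm }
  obtain ⟨φ, hφ1, hφ2⟩ := holder (Q := G ⧸ N)
    (fun q => ∃ g : G, (QuotientGroup.mk g : G ⧸ N) = q ∧ ∀ t, l < t → t < u → t < g • t)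
    (by
      rintro ⟨g, h1, h2⟩
      exact hupN g h2 ((QuotientGroup.eq_one_iff g).mp h1))
    (by
      rintro a b ⟨g, rfl, hg⟩ ⟨h, rfl, hh⟩
      refine ⟨g * h, rfl, fun t ht1 ht2 => ?_⟩
      rw [mul_smul]
      exact (hh t ht1 ht2).trans (hg _ (hin1 h t ht1) (hin2 h t ht2)))
    (by
      intro a ha
      obtain ⟨g, rfl⟩ := QuotientGroup.mk_surjective a
      have hg : g ∉ N := fun h => ha ((QuotientGroup.eq_one_iff g).mpr h)
      rcases hupor g hg with h | h
      · exact Or.inl ⟨g, rfl, h⟩
      · exact Or.inr ⟨g⁻¹, rfl, h⟩)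
    (by
      rintro a b ⟨h, rfl, hh⟩
      obtain ⟨g, rfl⟩ := QuotientGroup.mk_surjective a
      obtain ⟨K, hK⟩ := cofin hm hh (hu h) hlo hou (hin2 g o hou)
      refine ⟨K, ?_⟩
      rintro ⟨g', h1, h2⟩
      have h3 : (QuotientGroup.mk g' : G ⧸ N) = QuotientGroup.mk (g * (h ^ K)⁻¹) := h1
      have h4 := hupmul g' (g * (h ^ K)⁻¹) h2 (QuotientGroup.eq.mp h3)
      have h5 := h4 (h ^ K • o) (hin1 _ _ hlo) (hin2 _ _ hou)
      rw [mul_smul, inv_smul_smul] at h5
      exact absurd h5 (not_lt.mpr (hK K le_rfl).le))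
  refine ⟨φ.comp (QuotientGroup.mk' N), ?_, ?_⟩
  · intro g
    rw [← QuotientGroup.eq_one_iff]
    show φ (QuotientGroup.mk g) = 1 ↔ _
    rw [← map_one φ]
    exact hφ1.eq_iff
  · intro g hg
    obtain ⟨g', h1, h2⟩ := hφ2 _ hg
    exact hupmul g' g h2 (QuotientGroup.eq.mp h1) o hlo hou

/-- f.g. n-Engel group, point a moved: a nontrivial homomorphism to ℝ, positive only where a is moved up. -/
theorem real_onto {G Ω : Type} [Group G] [Group.FG G] {n : ℕ} (he : Eng G n) [LinearOrder Ω] [MulAction G Ω]
    (hm : ∀ (g : G) (a b : Ω), a ≤ b → g • a ≤ g • b) (a : Ω) (ha : ∃ g : G, g • a ≠ a) :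
    ∃ φ : G →* Multiplicative ℝ, (∃ g, φ g ≠ 1) ∧ ∀ g, 1 < φ g → a < g • a := by
  obtain ⟨X, iX, iA, hM, ι, hι, hιg⟩ := exists_action (G := G) (Ω := Ω) hm
  obtain ⟨g, hga⟩ := ha
  have hinj : ∀ a b : Ω, ι a = ι b → a = b := by
    intro a b hab
    rcases lt_trichotomy a b with h | h | h
    · exact absurd hab (hι a b h).ne
    · exact h
    · exact absurd hab.symm (hι b a h).ne
  obtain ⟨l, u, N, hlo, hou, hl, hu, hNn, hNt, hN⟩ := exists_normal he hM (fun x y a => no_link he hM x y a) (ι a)
    ⟨g, fun h => hga (hinj _ _ ((hιg g a).symm.trans h))⟩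
  haveI := hNn
  obtain ⟨φ, h1, h2⟩ := real_hom he hM l u (ι a) hlo hou hl hu N hN
  refine ⟨φ, ?_, fun g hg => ?_⟩
  · by_contra hc
    push Not at hc
    exact hNt (top_le_iff.mp fun g _ => (h1 g).mp (hc g))
  · have h3 := h2 g hg
    rw [hιg] at h3
    rcases lt_trichotomy a (g • a) with h | h | h
    · exact h
    · rw [← h] at h3; exact absurd h3 (lt_irrefl _)
    · exact absurd (hι _ _ h) (not_lt.mpr h3.le)

end Pool.Agent.H67.EG
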