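/- actions of f.g. perfect n-Engel groups on circularly ordered sets are trivial. -/
import Pool.Agent.H67.EG.R
import Pool.Agent.H67.EG.Ca
import Pool.Agent.H67.EG.Cb

set_option autoImplicit false

namespace Pool.Agent.H67.EG

open scoped commutatorElement

theorem E_hom {G H : Type} [Group G] [Group H] (f : H →* G) (x y : H) (k : ℕ) : f (E x y k) = E (f x) (f y) k := by
  induction k with
  | zero => rfl
  | succ k ih => simp [E, ih]

theorem eng_subgroup {G : Type} [Group G] {n : ℕ} (h : Eng G n) (H : Subgroup G) : Eng H n := by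
  intro x y
  have := E_hom H.subtype x y n
  rw [h] at this
  exact H.subtype_injective (by rw [this]; simp)

theorem comm_mod_center {Γ : Type} [Group Γ] {a b c d : Γ} (h1 : c⁻¹ * a ∈ Subgroup.center Γ)
    (h2 : d⁻¹ * b ∈ Subgroup.center Γ) : ⁅a, b⁆ = ⁅c, d⁆ := by
  obtain ⟨z, hz⟩ : ∃ z, z = c⁻¹ * a := ⟨_, rfl⟩
  obtain ⟨t, ht⟩ : ∃ t, t = d⁻¹ * b := ⟨_, rfl⟩
  have ea : a = c * z := by rw [hz]; group
  have eb : b = d * t := by rw [ht]; group
  rw [← hz] at h1
  rw [← ht] at h2
  have cz : ∀ g, g * z = z * g := fun g => (Subgroup.mem_center_iff.mp h1 g)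
  have ct : ∀ g, g * t = t * g := fun g => (Subgroup.mem_center_iff.mp h2 g)
  rw [ea, eb, commutatorElement_def, commutatorElement_def, mul_inv_rev, mul_inv_rev]
  calc c * z * (d * t) * (z⁻¹ * c⁻¹) * (t⁻¹ * d⁻¹)
      = c * (z * (d * t)) * z⁻¹ * c⁻¹ * t⁻¹ * d⁻¹ := by group
    _ = c * ((d * t) * z) * z⁻¹ * c⁻¹ * t⁻¹ * d⁻¹ := by rw [cz]
    _ = c * d * (t * c⁻¹) * t⁻¹ * d⁻¹ := by group
    _ = c * d * (c⁻¹ * t) * t⁻¹ * d⁻¹ := by rw [ct]
    _ = c * d * c⁻¹ * d⁻¹ := by group

/-- the commutator subgroup of Γ maps onto a perfect quotient. -/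
theorem comm_onto_perfect {G Γ : Type} [Group G] [Group Γ] (hG : commutator G = ⊤) (π : Γ →* G)
    (hπ : Function.Surjective π) : ∀ g : G, ∃ d ∈ commutator Γ, π d = g := by
  intro g
  have h1 : (commutator Γ).map π = commutator G := by
    rw [commutator_def, Subgroup.map_commutator, commutator_def, Subgroup.map_top_of_surjective π hπ]
  have h2 : g ∈ (commutator Γ).map π := by rw [h1, hG]; trivial
  obtain ⟨d, hd, hdg⟩ := h2
  exact ⟨d, hd, hdg⟩

/-- central extensions of a perfect group: the commutator subgroup acts trivially on every linear order. -/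
theorem central_perfect {G Γ Ω : Type} [Group G] [Group Γ] {n : ℕ} (he : Eng G n) [Group.FG G]
    (hG : commutator G = ⊤) (π : Γ →* G) (hπ : Function.Surjective π) (hc : π.ker ≤ Subgroup.center Γ)
    [LinearOrder Ω] [MulAction Γ Ω] (hm : ∀ (g : Γ) (a b : Ω), a ≤ b → g • a ≤ g • b) :
    ∀ c ∈ commutator Γ, ∀ a : Ω, c • a = a := by
  -- Γ is (n+1)-Engel
  have heΓ : Eng Γ (n + 1) := by
    intro x y
    have h1 : E x y n ∈ Subgroup.center Γ := hc (by rw [MonoidHom.mem_ker, E_hom]; exact he _ _)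
    have h2 := Subgroup.mem_center_iff.mp h1 y⁻¹
    show (E x y n)⁻¹ * y⁻¹ * E x y n * y = 1
    rw [mul_assoc (E x y n)⁻¹, h2]
    group
  have hD := comm_onto_perfect hG π hπ
  have hcen : ∀ {a b : Γ}, π a = π b → b⁻¹ * a ∈ Subgroup.center Γ := by
    intro a b hab
    apply hc
    rw [MonoidHom.mem_ker, map_mul, map_inv, hab, inv_mul_cancel]
  -- the commutator subgroup is finitely generated
  have hFG : (commutator Γ).FG := by
    obtain ⟨S, hSt⟩ := (Group.fg_def (G := G)).mp inferInstance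
    choose lift hlift1 hlift2 using hD
    classical
    have hle : Subgroup.closure (lift '' (S : Set G)) ≤ commutator Γ := by
      rw [Subgroup.closure_le]
      rintro _ ⟨s, -, rfl⟩
      exact hlift1 s
    have hmap : (Subgroup.closure (lift '' (S : Set G))).map π = ⊤ := by
      rw [MonoidHom.map_closure, Set.image_image]
      simp only [hlift2, Set.image_id']
      exact hSt
    have hge : commutator Γ ≤ Subgroup.closure (lift '' (S : Set G)) := by
      rw [commutator_def, Subgroup.commutator_le]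
      intro a _ b _
      obtain ⟨a', ha', ea⟩ : ∃ a' ∈ Subgroup.closure (lift '' (S : Set G)), π a' = π a := by
        have : π a ∈ (Subgroup.closure (lift '' (S : Set G))).map π := by rw [hmap]; trivial
        obtain ⟨u, hu, e⟩ := this
        exact ⟨u, hu, e⟩
      obtain ⟨b', hb', eb⟩ : ∃ b' ∈ Subgroup.closure (lift '' (S : Set G)), π b' = π b := by
        have : π b ∈ (Subgroup.closure (lift '' (S : Set G))).map π := by rw [hmap]; trivial
        obtain ⟨u, hu, e⟩ := this
        exact ⟨u, hu, e⟩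
      rw [comm_mod_center (hcen ea.symm) (hcen eb.symm), commutatorElement_def]
      exact mul_mem (mul_mem (mul_mem ha' hb') (inv_mem ha')) (inv_mem hb')
    refine ⟨S.image lift, ?_⟩
    rw [Finset.coe_image]
    exact le_antisymm hle hge
  by_contra hcon
  push Not at hcon
  obtain ⟨c, hcD, a, hca⟩ := hcon
  have : Group.FG (commutator Γ) := (Group.fg_iff_subgroup_fg _).mpr hFG
  obtain ⟨φ, ⟨⟨d, hd⟩, hdφ⟩, -⟩ := real_onto (eng_subgroup heΓ (commutator Γ)) (Ω := Ω)
    (fun g a b hab => hm g a b hab) a ⟨⟨c, hcD⟩, hca⟩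
  -- but φ is trivial
  have hker : commutator Γ ≤ (φ.ker).map (commutator Γ).subtype := by
    conv_lhs => rw [commutator_def]
    rw [Subgroup.commutator_le]
    intro a _ b _
    obtain ⟨a', ha', ea⟩ := hD (π a)
    obtain ⟨b', hb', eb⟩ := hD (π b)
    refine ⟨⁅(⟨a', ha'⟩ : commutator Γ), ⟨b', hb'⟩⁆, ?_, ?_⟩
    · show _ ∈ φ.ker
      rw [MonoidHom.mem_ker, map_commutatorElement, commutatorElement_eq_one_iff_mul_comm, mul_comm]
    · rw [map_commutatorElement]
      exact (comm_mod_center (hcen ea.symm) (hcen eb.symm)).symm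
  obtain ⟨e, he1, he2⟩ := hker hd
  have h4 : e = ⟨d, hd⟩ := Subtype.ext he2
  rw [h4] at he1
  exact hdφ he1

theorem circ_perfect {G C : Type} [Group G] {n : ℕ} (he : Eng G n) [Group.FG G] (hG : commutator G = ⊤)
    [CircularOrder C] [MulAction G C]
    (hm : ∀ (g : G) (a b c : C), btw a b c → btw (g • a) (g • b) (g • c)) (g : G) (x : C) : g • x = x := by
  obtain ⟨L, hL1, hL2⟩ := circ_linear x
  letI := L
  obtain ⟨Γ, iΓ, π, Ω, iL, iA, q, hπ, hc, hmΩ, hq, hqe⟩ := circ_ext (G := G) (C := C) x hL1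
    (fun g a b c h => (hL2 _ _ _).mp (hm g a b c ((hL2 _ _ _).mpr h)))
  obtain ⟨d, hd, hdg⟩ := comm_onto_perfect hG π hπ g
  obtain ⟨s, hs⟩ := hq x
  have h1 := central_perfect he hG π hπ hc hmΩ d hd s
  have h2 := hqe d s
  rw [h1, hdg, hs] at h2
  exact h2.symm

end Pool.Agent.H67.EG
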